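import Pool.Agent.H5.DG.Explore2

/-!
The key estimate, conclusion (MP_0d9ad5_pr).
-/

namespace H5DF

open MeasureTheory ENNReal

variable {d : ℕ}

lemma prob_cluster_mem (p : ℝ) (h0 : 0 ≤ p) (h1 : p ≤ 1) (x z : V d) :
    perc d p {ω | z ∈ cluster ω x} = tau d p (z - x) := by
  unfold tau
  have hm0 : MeasurableSet {ω : Cfg d | z - x ∈ cluster ω 0} := meas_reach 0 (z - x)
  conv_rhs => rw [← perc_shift (d := d) p h0 h1 x]
  rw [Measure.map_apply (measurable_shift x) hm0]
  congr 1
  ext ω
  simp only [Set.mem_setOf_eq, Set.mem_preimage]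
  rw [cluster_shift, zero_add, Set.mem_setOf_eq, sub_add_cancel]

lemma prob_zt_mem (p r : ℝ) (hp0 : 0 ≤ p) (hp1 : p ≤ 1) (hr0 : 0 ≤ r) (hr1 : r ≤ 1)
    (e : Ed d) (x z : V d) :
    ((perc d p).prod (perc d r)) {q | z ∈ cluster (zt e q) x} ≤ tau d (p * r) (z - x) := by
  rw [← prob_cluster_mem (p * r) (mul_nonneg hp0 hr0) (mul_le_one₀ hp1 hr0 hr1) x z]
  have h1 : perc d (p * r) = ((perc d p).prod (perc d r)).map
      (fun x : Cfg d × Cfg d => inter x.1 x.2) := (thin_law p r hp0 hp1 hr0 hr1).symm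
  have hm : MeasurableSet {ω : Cfg d | z ∈ cluster ω x} := meas_reach x z
  rw [h1, Measure.map_apply measurable_inter hm]
  refine measure_mono fun q hq => ?_
  exact cluster_mono (zt_le e q) x hq

/-- The total weight of all finite clusters. -/
lemma sum_clusters (p r : ℝ) (hp0 : 0 ≤ p) (hp1 : p ≤ 1) (hr0 : 0 ≤ r) (hr1 : r ≤ 1)
    (e : Ed d) (x : V d) :
    ∑' C : Finset (V d), (∑ z ∈ C, ENNReal.ofReal (1 + ‖z - x‖ ^ 2)) *
      ((perc d p).prod (perc d r)) {q | cluster (zt e q) x = (C : Set (V d))} ≤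
      mom d (p * r) := by
  classical
  set μ := (perc d p).prod (perc d r) with hμ
  have e1 : ∀ C : Finset (V d), (∑ z ∈ C, ENNReal.ofReal (1 + ‖z - x‖ ^ 2)) *
      μ {q | cluster (zt e q) x = (C : Set (V d))} =
      ∑' z : V d, ENNReal.ofReal (1 + ‖z - x‖ ^ 2) *
        (if z ∈ C then μ {q | cluster (zt e q) x = (C : Set (V d))} else 0) := by
    intro C
    rw [Finset.sum_mul, tsum_eq_sum (s := C)]
    · refine Finset.sum_congr rfl fun z hz => ?_
      rw [if_pos hz]
    · intro z hz
      rw [if_neg hz, mul_zero]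
  simp_rw [e1]
  rw [ENNReal.tsum_comm]
  have e2 : ∀ z : V d, ∑' C : Finset (V d), ENNReal.ofReal (1 + ‖z - x‖ ^ 2) *
      (if z ∈ C then μ {q | cluster (zt e q) x = (C : Set (V d))} else 0) ≤
      ENNReal.ofReal (1 + ‖z - x‖ ^ 2) * tau d (p * r) (z - x) := by
    intro z
    rw [ENNReal.tsum_mul_left]
    gcongr
    refine le_trans ?_ (prob_zt_mem p r hp0 hp1 hr0 hr1 e x z)
    have e3 : ∀ C : Finset (V d), (if z ∈ C then μ {q | cluster (zt e q) x = (C : Set (V d))}
        else 0) = μ {q | cluster (zt e q) x = (C : Set (V d)) ∧ z ∈ C} := by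
      intro C
      by_cases hz : z ∈ C
      · simp [hz]
      · simp [hz]
    simp_rw [e3]
    have hdis : Pairwise (Function.onFun Disjoint fun C : Finset (V d) =>
        {q : Cfg d × Cfg d | cluster (zt e q) x = (C : Set (V d)) ∧ z ∈ C}) := by
      intro C C' hCC
      rw [Function.onFun, Set.disjoint_left]
      rintro q ⟨h1, -⟩ ⟨h2, -⟩
      exact hCC (Finset.coe_injective (h1.symm.trans h2))
    have hms : ∀ C : Finset (V d), MeasurableSet
        {q : Cfg d × Cfg d | cluster (zt e q) x = (C : Set (V d)) ∧ z ∈ C} := by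
      intro C
      exact ((measurable_zt e) (meas_cluster_eq x (C : Set (V d)))).inter
        (MeasurableSet.const _)
    rw [← measure_iUnion hdis hms]
    refine measure_mono ?_
    intro q hq
    rw [Set.mem_iUnion] at hq
    obtain ⟨C, h1, h2⟩ := hq
    show z ∈ cluster (zt e q) x
    rw [h1]
    exact h2
  refine (ENNReal.tsum_le_tsum e2).trans (le_of_eq ?_)
  unfold mom
  exact (Equiv.subRight x).tsum_eq (fun y : V d => ENNReal.ofReal (1 + ‖y‖ ^ 2) * tau d (p * r) y)

/-- The key estimate. -/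
theorem explore (i0 : Fin d) (p r : ℝ) (hp0 : 0 ≤ p) (hp1 : p ≤ 1) (hr0 : 0 ≤ r) (hr1 : r ≤ 1)
    (K M R k : ℕ) (hR : R + K + 1 ≤ M) (hk : (2 * M + 1) ^ d ≤ k) (x : V d) (σ : Dir d) :
    ENNReal.ofReal (1 - p * r) * ∫⁻ q, (Ev K k x σ).indicator (fun q =>
        ENNReal.ofReal (1 + dvs i0 (cluster (zt (edge x σ) q) x) x ^ 2)) q
          ∂((perc d p).prod (perc d r)) ≤
      ENNReal.ofReal (p * (1 - r)) * (2 * d) *
        ENNReal.ofReal (((perc d p).real {ω | Arm R ω}) ^ 2) * mom d (p * r) := by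
  classical
  set μ := (perc d p).prod (perc d r) with hμ
  set e := edge x σ with he
  set w : Finset (V d) → ENNReal := fun C => ENNReal.ofReal (1 + dvs i0 (C : Set (V d)) x ^ 2)
    with hw
  set A2 := ENNReal.ofReal (((perc d p).real {ω | Arm R ω}) ^ 2) with hA2
  set cc := ENNReal.ofReal (p * (1 - r)) with hcc
  have hpt : ∀ q, (Ev K k x σ).indicator (fun q =>
        ENNReal.ofReal (1 + dvs i0 (cluster (zt e q) x) x ^ 2)) q ≤
      ∑' C : Finset (V d), if x ∈ C ∧ ∀ z ∈ C, ‖z - x‖ ≤ K then
        ∑ b ∈ bdry C e, (Sx x σ M C b).indicator (fun _ => w C) q else 0 := by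
    intro q
    by_cases hq : q ∈ Ev K k x σ
    · rw [Set.indicator_of_mem hq]
      have hg : Good K (zt e q) x := hq.2.2.2.2.1
      have hfin := good_finite hg
      obtain ⟨b, hb, hS⟩ := Ev_sub K M k hk (by omega) x σ q hq hfin
      refine le_trans ?_ (ENNReal.le_tsum hfin.toFinset)
      rw [if_pos]
      · refine le_trans ?_ (Finset.single_le_sum (f := fun b =>
          (Sx x σ M hfin.toFinset b).indicator (fun _ => w hfin.toFinset) q)
          (fun _ _ => bot_le) hb)
        rw [Set.indicator_of_mem hS]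
        simp only [hw]
        rw [Set.Finite.coe_toFinset]
      · refine ⟨by simpa using mem_cluster_self _ _, ?_⟩
        intro z hz
        have hz' : z ∈ cluster (zt e q) x := by simpa using hz
        exact hg z hz' x (mem_cluster_self _ _)
    · rw [Set.indicator_of_notMem hq]
      exact bot_le
  have hmeas : ∀ C : Finset (V d), Measurable fun q : Cfg d × Cfg d =>
      if x ∈ C ∧ ∀ z ∈ C, ‖z - x‖ ≤ K then
        ∑ b ∈ bdry C e, (Sx x σ M C b).indicator (fun _ => w C) q else 0 := by
    intro C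
    split_ifs
    · exact Finset.measurable_fun_sum _ fun b _ => measurable_const.indicator (meas_Sx x σ M C b)
    · exact measurable_const
  calc ENNReal.ofReal (1 - p * r) * ∫⁻ q, (Ev K k x σ).indicator (fun q =>
        ENNReal.ofReal (1 + dvs i0 (cluster (zt e q) x) x ^ 2)) q ∂μ
      ≤ ENNReal.ofReal (1 - p * r) * ∫⁻ q, ∑' C : Finset (V d),
          (if x ∈ C ∧ ∀ z ∈ C, ‖z - x‖ ≤ K then
        ∑ b ∈ bdry C e, (Sx x σ M C b).indicator (fun _ => w C) q else 0) ∂μ := by
        gcongr with q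
        exact hpt q
    _ = ∑' C : Finset (V d), ENNReal.ofReal (1 - p * r) *
          ∫⁻ q, (if x ∈ C ∧ ∀ z ∈ C, ‖z - x‖ ≤ K then
        ∑ b ∈ bdry C e, (Sx x σ M C b).indicator (fun _ => w C) q else 0) ∂μ := by
        rw [lintegral_tsum fun C => (hmeas C).aemeasurable, ENNReal.tsum_mul_left]
    _ ≤ ∑' C : Finset (V d), (cc * (2 * d) * A2) *
          ((∑ z ∈ C, ENNReal.ofReal (1 + ‖z - x‖ ^ 2)) *
            μ {q | cluster (zt e q) x = (C : Set (V d))}) := by
        refine ENNReal.tsum_le_tsum fun C => ?_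
        by_cases hC : x ∈ C ∧ ∀ z ∈ C, ‖z - x‖ ≤ K
        · simp only [if_pos hC]
          rw [lintegral_finsetSum _ fun b _ =>
            measurable_const.indicator (meas_Sx x σ M C b), Finset.mul_sum]
          have h5 : ∀ b ∈ bdry C e, ENNReal.ofReal (1 - p * r) *
              ∫⁻ q, (Sx x σ M C b).indicator (fun _ => w C) q ∂μ ≤
              w C * (cc * (μ {q | cluster (zt e q) x = (C : Set (V d))} * A2)) := by
            intro b hb
            rw [lintegral_indicator (meas_Sx x σ M C b), setLIntegral_const]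
            have h6 := Sx_le p r hp0 hp1 hr0 hr1 K M R hR x σ C hC.1 hC.2 b hb
            calc ENNReal.ofReal (1 - p * r) * (w C * μ (Sx x σ M C b))
                = w C * (ENNReal.ofReal (1 - p * r) * μ (Sx x σ M C b)) := by ring
              _ ≤ _ := mul_le_mul_right h6 _
          refine (Finset.sum_le_sum h5).trans ?_
          rw [Finset.sum_const, nsmul_eq_mul]
          have h7 : ((bdry C e).card : ENNReal) ≤ 2 * d * C.card := by
            exact_mod_cast card_bdry C e
          have h8 : (C.card : ENNReal) * w C ≤ ∑ z ∈ C, ENNReal.ofReal (1 + ‖z - x‖ ^ 2) := by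
            have h9 := ENNReal.ofReal_le_ofReal (dvs_sq i0 C x hC.1)
            rw [ENNReal.ofReal_mul (Nat.cast_nonneg _), ENNReal.ofReal_natCast,
              ENNReal.ofReal_sum_of_nonneg fun z _ => by positivity] at h9
            exact h9
          calc ((bdry C e).card : ENNReal) *
                (w C * (cc * (μ {q | cluster (zt e q) x = (C : Set (V d))} * A2)))
              ≤ (2 * d * C.card) *
                (w C * (cc * (μ {q | cluster (zt e q) x = (C : Set (V d))} * A2))) := by gcongr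
            _ = (cc * (2 * d) * A2) * ((C.card * w C) *
                  μ {q | cluster (zt e q) x = (C : Set (V d))}) := by ring
            _ ≤ _ := by gcongr
        · simp only [if_neg hC, lintegral_zero, mul_zero]
          exact bot_le
    _ = (cc * (2 * d) * A2) * ∑' C : Finset (V d),
          ((∑ z ∈ C, ENNReal.ofReal (1 + ‖z - x‖ ^ 2)) *
            μ {q | cluster (zt e q) x = (C : Set (V d))}) := ENNReal.tsum_mul_left
    _ ≤ (cc * (2 * d) * A2) * mom d (p * r) := by
        gcongr
        exact sum_clusters p r hp0 hp1 hr0 hr1 e x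

end H5DF
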