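import Mathlib

/-!
Blocks and dangling ends (MP_0d9ad5_pr): `H ≤ G` are graphs, the blocks are the components of `H`.
-/

namespace H5DF

variable {V : Type*}

/-- `G` without the vertices of `S`. -/
def off (G : SimpleGraph V) (S : Set V) : SimpleGraph V where
  Adj a b := G.Adj a b ∧ a ∉ S ∧ b ∉ S
  symm := ⟨fun _ _ h => ⟨h.1.symm, h.2.2, h.2.1⟩⟩
  loopless := ⟨fun _ h => G.loopless.irrefl _ h.1⟩

/-- The block of `x`. -/
def blk (H : SimpleGraph V) (x : V) : Set V := {y | H.Reachable x y}

/-- `x` is live: no block not containing `x` cuts `x` off in a component of size `≤ k`. -/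
def BLive (G H : SimpleGraph V) (k : ℕ) (x : V) : Prop :=
  ∀ y, y ∉ blk H x → ¬ ({z | (off G (blk H y)).Reachable x z}.Finite ∧
    {z | (off G (blk H y)).Reachable x z}.ncard ≤ k)

/-- `w` is live and joined to `x` by a walk whose vertices outside the block of `w` are not
live. -/
def BAtt (G H : SimpleGraph V) (k : ℕ) (x w : V) : Prop :=
  BLive G H k w ∧ ∃ P : G.Walk x w, ∀ z ∈ P.support, z ∉ blk H w → ¬ BLive G H k z

end H5DF
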