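import Pool.Agent.H5.DF.Arms
import Pool.Agent.H5.DG.BGraph

/-!
JOB DG-4 (MP_0d9ad5_pr): two edge-disjoint arms have probability at most the square of the one-arm
probability. Uses `bk_bern`, and the tools of Pool/Agent/H5/DF/Arms.lean (helper30): restriction to the
finitely many edges near the starting points, colouring the edges by `c e := true` iff the edge is in `P`.

PROOF. If the event holds, colour: then `v` reaches distance `≥ R` in `G (ω ∧ c)` and `y` reaches distance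
`≥ R` in `G (ω ∧ ¬ c)`. Both events depend only on the edges with an end at distance `< R` from `v`
resp. `y` (cut at the first vertex at distance `≥ R`): a finite set; push to it, `bk_bern`, and by
translation each of the two events has probability `(perc d p) {Arm R}`.
-/

namespace H5DF

open MeasureTheory

variable {d : ℕ}

/-- Edge-disjoint walks off `C` from `v` and from `y` to `T`. -/
def TwoArms (C T : Set (V d)) (v y : V d) (ω : Cfg d) : Prop :=
  ∃ s ∈ T, ∃ t ∈ T, ∃ (P : (off (G ω) C).Walk v s) (Q : (off (G ω) C).Walk y t),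
    ∀ e ∈ P.edges, e ∉ Q.edges

section TwoAux

/-- The ball around `v` is left by the cluster of `v`. -/
def ArmAt (v : V d) (R : ℕ) (ω : Cfg d) : Prop := ∃ z : V d, (R : ℝ) ≤ ‖z - v‖ ∧ (G ω).Reachable v z

lemma ArmAt.mono {v : V d} {R : ℕ} {ω ω' : Cfg d} (h : ∀ e, ω e = true → ω' e = true)
    (ha : ArmAt v R ω) : ArmAt v R ω' := by
  obtain ⟨y, h1, h2⟩ := ha
  exact ⟨y, h1, h2.mono (G_mono h)⟩

lemma armAt_iff (v : V d) (R : ℕ) (ω : Cfg d) : ArmAt v R ω ↔ Arm R (shift v ω) := by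
  constructor
  · rintro ⟨z, h1, h2⟩
    refine ⟨z - v, h1, ?_⟩
    rw [← SimpleGraph.Iso.reachable_iff (φ := shiftIso v ω), shiftIso_apply, shiftIso_apply]
    simpa using h2
  · rintro ⟨z, h1, h2⟩
    rw [← SimpleGraph.Iso.reachable_iff (φ := shiftIso v ω), shiftIso_apply, shiftIso_apply] at h2
    exact ⟨z + v, by simpa using h1, by simpa using h2⟩

lemma perc_armAt (p : ℝ) (h0 : 0 ≤ p) (h1 : p ≤ 1) (v : V d) (R : ℕ) :
    perc d p {ω | ArmAt v R ω} = perc d p {ω | Arm R ω} := by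
  have h : {ω : Cfg d | ArmAt v R ω} = shift v ⁻¹' {ω | Arm R ω} := by
    ext ω
    exact armAt_iff v R ω
  rw [h, ← Measure.map_apply (measurable_shift v) (meas_arm R), perc_shift p h0 h1]

lemma armAt_walk (v : V d) (R N : ℕ) (hN : (R : ℝ) + ‖v‖ ≤ N) (ω : Cfg d) {x y : V d}
    (P : (G ω).Walk x y) (hy : (R : ℝ) ≤ ‖y - v‖) :
    ∃ y', (R : ℝ) ≤ ‖y' - v‖ ∧ (G (exE N ((EBox d N).domRestrict ω))).Reachable x y' := by
  induction P with
  | nil => exact ⟨_, hy, SimpleGraph.Reachable.refl _⟩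
  | @cons x z y h P ih =>
    by_cases hx : (R : ℝ) ≤ ‖x - v‖
    · exact ⟨x, hx, SimpleGraph.Reachable.refl _⟩
    · push Not at hx
      obtain ⟨y', h1, h2⟩ := ih hy
      refine ⟨y', h1, ?_⟩
      obtain ⟨s, hs1, hs2⟩ := h
      have hx' : ‖x‖ < N := by
        have h3 := norm_add_le (x - v) v
        rw [sub_add_cancel] at h3
        linarith
      have hadj : (G (exE N ((EBox d N).domRestrict ω))).Adj x z := by
        refine ⟨s, hs1, ?_⟩
        rw [exE_restrict N ω _ (edge_mem_EBox hx' s)]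
        exact hs2
      exact hadj.reachable.trans h2

lemma armAt_restrict (v : V d) (R N : ℕ) (hN : (R : ℝ) + ‖v‖ ≤ N) (ω : Cfg d) :
    ArmAt v R (exE N ((EBox d N).domRestrict ω)) ↔ ArmAt v R ω := by
  constructor
  · exact ArmAt.mono fun e he => exE_le N ω e he
  · rintro ⟨y, hy, ⟨P⟩⟩
    exact armAt_walk v R N hN ω P hy

lemma twoArms_arms (C T : Set (V d)) (v y : V d) (R : ℕ)
    (hT : ∀ z ∈ T, (R : ℝ) ≤ ‖z - v‖ ∧ (R : ℝ) ≤ ‖z - y‖) (ω : Cfg d)
    (h : TwoArms C T v y ω) :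
    ∃ c : Cfg d, ArmAt v R (fun e => ω e && c e) ∧ ArmAt y R (fun e => ω e && !c e) := by
  classical
  obtain ⟨s, hs, t, ht, P, Q, hPQ⟩ := h
  refine ⟨fun e => decide (s(e.1, e.1 + Pi.single e.2 1) ∈ P.edges), ⟨s, (hT s hs).1, ?_⟩,
    ⟨t, (hT t ht).2, ?_⟩⟩
  · refine ⟨P.transfer _ ?_⟩
    intro e he
    have hG := P.edges_subset_edgeSet he
    induction e with
    | h x y =>
      rw [SimpleGraph.mem_edgeSet] at hG ⊢
      obtain ⟨⟨u, hu1, hu2⟩, -, -⟩ := hG
      refine ⟨u, hu1, ?_⟩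
      simp only [hu2, sym_edge, Bool.true_and, decide_eq_true_eq]
      rwa [← hu1]
  · refine ⟨Q.transfer _ ?_⟩
    intro e he
    have hG := Q.edges_subset_edgeSet he
    induction e with
    | h x y =>
      rw [SimpleGraph.mem_edgeSet] at hG ⊢
      obtain ⟨⟨u, hu1, hu2⟩, -, -⟩ := hG
      refine ⟨u, hu1, ?_⟩
      simp only [hu2, sym_edge, Bool.true_and, Bool.not_eq_true', decide_eq_false_iff_not]
      rw [← hu1]
      intro hP
      exact hPQ _ hP he

lemma meas_reach_off (C : Set (V d)) (S : Set (Sym2 (V d))) (x y : V d) :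
    MeasurableSet {ω : Cfg d | ((off (G ω) C).deleteEdges S).Reachable x y} := by
  refine meas_reach_gen (fun ω : Cfg d => (off (G ω) C).deleteEdges S) ?_ x y
  intro a b
  have : {ω : Cfg d | ((off (G ω) C).deleteEdges S).Adj a b} =
      {ω : Cfg d | (G ω).Adj a b} ∩ {_ω : Cfg d | a ∉ C ∧ b ∉ C ∧ s(a, b) ∉ S} := by
    ext ω
    constructor
    · intro h
      rw [Set.mem_ofPred_eq, SimpleGraph.deleteEdges_adj] at h
      exact ⟨h.1.1, h.1.2.1, h.1.2.2, h.2⟩
    · rintro ⟨h1, h2, h3, h4⟩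
      rw [Set.mem_ofPred_eq, SimpleGraph.deleteEdges_adj]
      exact ⟨⟨h1, h2, h3⟩, h4⟩
  rw [this]
  exact (meas_adj a b).inter (MeasurableSet.const _)

end TwoAux

theorem twoArms_le (p : ℝ) (h0 : 0 ≤ p) (h1 : p ≤ 1) (C T : Set (V d)) (v y : V d) (R : ℕ)
    (hT : ∀ z ∈ T, (R : ℝ) ≤ ‖z - v‖ ∧ (R : ℝ) ≤ ‖z - y‖) :
    perc d p {ω | TwoArms C T v y ω} ≤ ENNReal.ofReal (((perc d p).real {ω | Arm R ω}) ^ 2) := by
  classical
  have hpr := isProb_perc (d := d) p h0 h1
  have hbp := isProb_bern h0 h1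
  obtain ⟨N, hN⟩ := exists_nat_ge ((R : ℝ) + ‖v‖ + ‖y‖)
  have hNv : (R : ℝ) + ‖v‖ ≤ N := by
    have := norm_nonneg y
    linarith
  have hNy : (R : ℝ) + ‖y‖ ≤ N := by
    have := norm_nonneg v
    linarith
  let A : V d → Set (EBox d N → Bool) := fun u => {a | ArmAt u R (exE N a)}
  have hA : ∀ u, ∀ a b : EBox d N → Bool, (∀ i, a i = true → b i = true) → a ∈ A u → b ∈ A u := by
    intro u a b hab ha
    refine ArmAt.mono ?_ ha
    intro e he
    by_cases h : e ∈ EBox d N
    · simp only [exE, h, dif_pos] at he ⊢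
      exact hab _ he
    · simp [exE, h] at he
  have hmap := Measure.infinitePi_map_restrict' (μ := fun _ : Ed d => bern p) (I := EBox d N)
  have hmeas : ∀ S : Set (EBox d N → Bool), MeasurableSet S := fun S => S.toFinite.measurableSet
  have hrm : Measurable ((EBox d N).domRestrict : Cfg d → (EBox d N → Bool)) :=
    Set.measurable_restrict _
  have hPA : ∀ u : V d, (R : ℝ) + ‖u‖ ≤ N → (Measure.infinitePi fun _ : EBox d N => bern p) (A u) =
      perc d p {ω : Cfg d | Arm R ω} := by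
    intro u hu
    have hArm : {ω : Cfg d | ArmAt u R ω} = (EBox d N).domRestrict ⁻¹' (A u) := by
      ext ω
      exact (armAt_restrict u R N hu ω).symm
    rw [← perc_armAt p h0 h1 u R, hArm, ← hmap, Measure.map_apply hrm (hmeas (A u))]
    rfl
  have hbk := bk_bern p h0 h1 (A v) (A y) (hA v) (hA y)
  have hsub : {ω : Cfg d | TwoArms C T v y ω} ⊆ (EBox d N).domRestrict ⁻¹'
      {a | ∃ c : EBox d N → Bool, (fun i => a i && c i) ∈ A v ∧ (fun i => a i && !c i) ∈ A y} := by
    intro ω hω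
    obtain ⟨c, hc1, hc2⟩ := twoArms_arms C T v y R hT ω hω
    refine ⟨(EBox d N).domRestrict c, ?_, ?_⟩
    · exact (armAt_restrict v R N hNv (fun e => ω e && c e)).2 hc1
    · exact (armAt_restrict y R N hNy (fun e => ω e && !c e)).2 hc2
  have hle : perc d p {ω : Cfg d | TwoArms C T v y ω} ≤
      perc d p {ω : Cfg d | Arm R ω} * perc d p {ω : Cfg d | Arm R ω} := by
    refine (measure_mono hsub).trans ?_
    rw [hPA v hNv, hPA y hNy] at hbk
    refine le_trans (le_of_eq ?_) hbk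
    rw [← hmap, Measure.map_apply hrm (hmeas _)]
    rfl
  refine hle.trans (le_of_eq ?_)
  rw [sq, ENNReal.ofReal_mul measureReal_nonneg, ofReal_measureReal]

/-- `TwoArms` depends only on the edges with both ends off `C`. -/
theorem twoArms_dep (C T : Set (V d)) (v y : V d) (ω ω' : Cfg d)
    (h : ∀ (u : V d) (s : Dir d), u ∉ C → u + step s ∉ C → ω (edge u s) = ω' (edge u s)) :
    TwoArms C T v y ω → TwoArms C T v y ω' := by
  rintro ⟨s, hs, t, ht, P, Q, hPQ⟩
  have hle : off (G ω) C ≤ off (G ω') C := by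
    rintro a b ⟨⟨u, hu1, hu2⟩, ha, hb⟩
    refine ⟨⟨u, hu1, ?_⟩, ha, hb⟩
    rw [← h a u ha (by rw [← hu1]; exact hb)]
    exact hu2
  refine ⟨s, hs, t, ht, P.mapLe hle, Q.mapLe hle, ?_⟩
  intro e he
  rw [SimpleGraph.Walk.edges_mapLe_eq_edges] at he ⊢
  exact hPQ e he

/-- `TwoArms` is an increasing event; it is measurable. -/
theorem meas_twoArms (C T : Set (V d)) (v y : V d) :
    MeasurableSet {ω : Cfg d | TwoArms C T v y ω} := by
  classical
  have : {ω : Cfg d | TwoArms C T v y ω} =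
      ⋃ s : V d, ⋃ t : V d, ⋃ E : Finset (Sym2 (V d)), ({_ω : Cfg d | s ∈ T ∧ t ∈ T} ∩
        ({ω : Cfg d | ((off (G ω) C).deleteEdges (E : Set (Sym2 (V d)))ᶜ).Reachable v s} ∩
        {ω : Cfg d | ((off (G ω) C).deleteEdges (E : Set (Sym2 (V d)))).Reachable y t})) := by
    ext ω
    simp only [Set.mem_iUnion, Set.mem_inter_iff]
    constructor
    · rintro ⟨s, hs, t, ht, P, Q, hPQ⟩
      refine ⟨s, t, P.edges.toFinset, ⟨hs, ht⟩, ⟨P.toDeleteEdges _ ?_⟩, ⟨Q.toDeleteEdges _ ?_⟩⟩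
      · intro e he h
        exact h (by simpa using he)
      · intro e he h
        refine hPQ e ?_ he
        simpa using h
    · rintro ⟨s, t, E, ⟨hs, ht⟩, ⟨P⟩, ⟨Q⟩⟩
      refine ⟨s, hs, t, ht, P.mapLe (SimpleGraph.deleteEdges_le _),
        Q.mapLe (SimpleGraph.deleteEdges_le _), ?_⟩
      intro e he h
      rw [SimpleGraph.Walk.edges_mapLe_eq_edges] at he h
      have h1 := P.edges_subset_edgeSet he
      have h2 := Q.edges_subset_edgeSet h
      rw [SimpleGraph.edgeSet_deleteEdges] at h1 h2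
      exact h1.2 h2.2
  rw [this]
  exact MeasurableSet.iUnion fun s => MeasurableSet.iUnion fun t => MeasurableSet.iUnion fun E =>
    (MeasurableSet.const _).inter ((meas_reach_off C _ v s).inter (meas_reach_off C _ y t))

end H5DF
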