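import Pool.Agent.H5.DF.Menger
import Pool.Agent.H5.DG.BGraph

/-!
JOB DG-2 (MP_0d9ad5_pr): two arms off the block of `x`. Pure graph theory.

First `menger_set`: the version of `menger_two` (Pool/Agent/H5/DF/Menger.lean, job of helper84) with a
SET `X` of sources; the proof is word for word the same (`W`, `P`, `Q` start anywhere in `X`). If
helper84 lands it in Menger.lean, import it and delete it here.

PROOF of `barms`. `C := blk H x`, `y ∉ C`. Claim A: for every `g : Sym2 V` some `z ∈ C` reaches `T` in
`G.deleteEdges {g}`. If both ends of `g` are in `C`: take a `G`-walk from `x` to a point of `T` (the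
component is infinite, `Tᶜ` finite), start it at its last vertex in `C`. Otherwise suppose not:
`C` is connected in `G - g`, `K :=` component of `x` in `G - g`, `C ⊆ K`, `K ∩ T = ∅`, so `K` is finite of
size `≤ k`; since the `G`-component of `x` is infinite some edge leaves `K`, it is `g = s(v,w)`, `v ∈ K`,
`w ∉ K`, so `w ∉ C`; the component of `x` in `off G (blk H w)` is contained in `K` (`g` has an end in
`blk H w`): contradiction to `BLive x`.
`menger_set` with `X = C`: edge-disjoint `P0 : x1 → s`, `Q0 : x2 → t` (`x1, x2 ∈ C`, `s, t ∈ T`). Start them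
at their last vertices in `C` (`T` is disjoint from `C`): `P0 = (u1 v1) P1`, `Q0 = (u2 v2) Q1`, `u1, u2 ∈ C`,
`v1, v2 ∉ C`, `P1, Q1` walks in `off G C`, all edges of `P0` and `Q0` different.
(ii) `y` reaches `T` in `off G C`: otherwise the component of `y` in `off G C` is inside `Tᶜ`, finite of
size `≤ k`, contradiction to `BLive y` (with the block `C`, `x ∉ blk H y`). Let `R` be such a walk.
If `s(u1,v1) = s(x,y)` (so `v1 = y`, `u1 = x`, as `y ∉ C`): answer `u2, v2`, `P := Q1`, `Q := P1` (from `y`).
Same if `s(u2,v2) = s(x,y)`. Otherwise follow `R` from `y` to its FIRST vertex `z` on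
`P1.support ∪ Q1.support` (if there is none: answer `u1, v1, P1, R`; edges of `R` not in `P1` because
their ends are not in the support). If `z ∈ P1`: answer `u2, v2`, `P := Q1`,
`Q := (R until z) ++ (P1 from z)`. Symmetric if `z ∈ Q1`.
-/

namespace H5DF

open SimpleGraph

variable {V : Type*}

/-- Start a walk at its last vertex in `C` and drop the first edge. -/
theorem exit_walk {G : SimpleGraph V} (C : Set V) {a s : V} (ha : a ∈ C) (hs : s ∉ C)
    (R : G.Walk a s) : ∃ u v : V, u ∈ C ∧ v ∉ C ∧ G.Adj u v ∧ s(u, v) ∈ R.edges ∧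
      ∃ P : (off G C).Walk v s, ∀ e ∈ P.edges, e ∈ R.edges := by
  obtain ⟨u, hu, R', hR', ht⟩ := exists_tail_walk C R ⟨a, R.start_mem_support, ha⟩
  cases R' with
  | nil => exact absurd hu hs
  | @cons _ v _ h p =>
    rw [Walk.support_cons, List.tail_cons] at ht
    have hp : ∀ e ∈ p.edges, e ∈ (off G C).edgeSet := by
      intro e he
      induction e using Sym2.ind with
      | _ c d =>
        rw [SimpleGraph.mem_edgeSet]
        exact ⟨p.adj_of_mem_edges he, ht c (Walk.fst_mem_support_of_mem_edges p he),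
          ht d (Walk.snd_mem_support_of_mem_edges p he)⟩
    refine ⟨u, v, hu, ht v p.start_mem_support, h, hR' _ ?_, p.transfer _ hp, ?_⟩
    · rw [Walk.edges_cons]
      exact List.mem_cons_self
    · intro e he
      rw [Walk.edges_transfer] at he
      refine hR' _ ?_
      rw [Walk.edges_cons]
      exact List.mem_cons_of_mem _ he

/-- No edge separates the block of `x` from `T`. -/
theorem block_reach (G H : SimpleGraph V) (hHG : H ≤ G) (k : ℕ) (x : V) (T : Set V)
    (hT : Tᶜ.Finite) (hTk : Tᶜ.ncard ≤ k) (hx : {y | G.Reachable x y}.Infinite)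
    (hlx : BLive G H k x) (g : Sym2 V) :
    ∃ z ∈ blk H x, ∃ s ∈ T, (G.deleteEdges {g}).Reachable z s := by
  have hxC : x ∈ blk H x := Reachable.refl x
  by_cases hg : ∀ a ∈ g, a ∈ blk H x
  · obtain ⟨s, hs1, hs2⟩ : ∃ s, G.Reachable x s ∧ s ∈ T := by
      by_contra hc
      push Not at hc
      exact hx (hT.subset fun s hs => hc s hs)
    obtain ⟨W⟩ := hs1
    obtain ⟨z, hz, R, -, ht⟩ := exists_tail_walk (blk H x) W ⟨x, W.start_mem_support, hxC⟩
    refine ⟨z, hz, s, hs2, ⟨R.toDeleteEdges {g} ?_⟩⟩
    intro e he he2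
    rw [Set.mem_singleton_iff] at he2
    obtain ⟨w, hw, hwe⟩ := exists_mem_tail R e he
    exact ht w hw (hg w (by rw [← he2]; exact hwe))
  · push Not at hg
    obtain ⟨a, hag, haC⟩ := hg
    by_contra hcon
    push Not at hcon
    set K : Set V := {z | (G.deleteEdges {g}).Reachable x z} with hK
    have hxK : x ∈ K := Reachable.refl x
    have hKT : K ⊆ Tᶜ := fun z hz hzT => hcon x hxC z hzT hz
    have hstep : ∀ b c, b ∈ K → G.Adj b c → s(b, c) ≠ g → c ∈ K := by
      intro b c hb hbc hne
      have hadj : (G.deleteEdges {g}).Adj b c := by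
        rw [SimpleGraph.deleteEdges_adj]
        exact ⟨hbc, by simpa using hne⟩
      exact Reachable.trans hb hadj.reachable
    have hCK : ∀ z ∈ blk H x, z ∈ K := by
      intro z hz
      have hz' : H.Reachable x z := hz
      rw [SimpleGraph.reachable_iff_reflTransGen] at hz'
      induction hz' with
      | refl => exact hxK
      | tail h3 hbc ih =>
        rename_i b c
        have hb : b ∈ blk H x := by
          show H.Reachable x b
          rw [SimpleGraph.reachable_iff_reflTransGen]
          exact h3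
        have hc : c ∈ blk H x := Reachable.trans hb hbc.reachable
        refine hstep b c (ih hb) (hHG hbc) ?_
        intro h4
        rw [← h4, Sym2.mem_iff] at hag
        rcases hag with rfl | rfl
        · exact haC hb
        · exact haC hc
    obtain ⟨z, hz, hzK⟩ : ∃ z, G.Reachable x z ∧ z ∉ K := by
      by_contra hc
      push Not at hc
      exact hx ((hT.subset hKT).subset fun y hy => hc y hy)
    obtain ⟨p⟩ := hz
    obtain ⟨d, -, hd1, hd2⟩ := p.exists_boundary_dart K hxK hzK
    have hgd : s(d.fst, d.snd) = g := by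
      by_contra hne
      exact hd2 (hstep _ _ hd1 d.adj hne)
    have hwC : d.snd ∉ blk H x := fun h => hd2 (hCK _ h)
    refine hlx d.snd hwC ?_
    have hsub : {z | (off G (blk H d.snd)).Reachable x z} ⊆ K := by
      intro z hz
      have hz' : (off G (blk H d.snd)).Reachable x z := hz
      rw [SimpleGraph.reachable_iff_reflTransGen] at hz'
      induction hz' with
      | refl => exact hxK
      | tail h3 hbc ih =>
        rename_i b c
        have hb : (off G (blk H d.snd)).Reachable x b := by
          rw [SimpleGraph.reachable_iff_reflTransGen]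
          exact h3
        refine hstep b c (ih hb) hbc.1 ?_
        intro h4
        rw [← hgd, Sym2.eq_iff] at h4
        have hdd : d.snd ∈ blk H d.snd := Reachable.refl _
        rcases h4 with ⟨-, h5⟩ | ⟨h5, -⟩
        · exact hbc.2.2 (by rw [h5]; exact hdd)
        · exact hbc.2.1 (by rw [h5]; exact hdd)
    have hsub2 := hsub.trans hKT
    exact ⟨hT.subset hsub2, (Set.ncard_le_ncard hsub2 hT).trans hTk⟩

theorem barms (G H : SimpleGraph V) (hHG : H ≤ G) (k : ℕ) (x y : V) (T : Set V)
    (hT : Tᶜ.Finite) (hTk : Tᶜ.ncard ≤ k) (hCT : ∀ z ∈ blk H x, z ∉ T)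
    (hx : {y | G.Reachable x y}.Infinite) (hadj : G.Adj x y) (hxy : y ∉ blk H x)
    (hlx : BLive G H k x) (hly : BLive G H k y) :
    ∃ u v s t : V, u ∈ blk H x ∧ v ∉ blk H x ∧ G.Adj u v ∧ s(u, v) ≠ s(x, y) ∧ s ∈ T ∧ t ∈ T ∧
      ∃ (P : (off G (blk H x)).Walk v s) (Q : (off G (blk H x)).Walk y t),
        ∀ e ∈ P.edges, e ∉ Q.edges := by
  classical
  have hxC : x ∈ blk H x := Reachable.refl x
  have : Nonempty V := ⟨x⟩
  obtain ⟨x1, hx1, x2, hx2, s, hs, t, ht, P0, Q0, hPQ⟩ := menger_set G (blk H x) T
    (block_reach G H hHG k x T hT hTk hx hlx)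
  obtain ⟨u1, v1, hu1, hv1, ha1, he1, P1, hP1⟩ := exit_walk (blk H x) hx1
    (fun h => hCT s h hs) P0
  obtain ⟨u2, v2, hu2, hv2, ha2, he2, Q1, hQ1⟩ := exit_walk (blk H x) hx2
    (fun h => hCT t h ht) Q0
  have hdis : ∀ e ∈ P1.edges, e ∉ Q1.edges := fun e h1 h2 => hPQ e (hP1 e h1) (hQ1 e h2)
  have hne : s(u1, v1) ≠ s(u2, v2) := fun h => hPQ _ he1 (by rw [h]; exact he2)
  have key : ∀ u v : V, u ∈ blk H x → s(u, v) = s(x, y) → v = y := by
    intro u v hu h
    rw [Sym2.eq_iff] at h
    rcases h with h | h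
    · exact h.2
    · exact absurd hu (by rw [h.1]; exact hxy)
  by_cases h1 : s(u1, v1) = s(x, y)
  · have hv := key u1 v1 hu1 h1
    subst hv
    exact ⟨u2, v2, t, s, hu2, hv2, ha2, fun h => hne (h1.trans h.symm), ht, hs, Q1, P1,
      fun e h2 h3 => hdis e h3 h2⟩
  by_cases h2 : s(u2, v2) = s(x, y)
  · have hv := key u2 v2 hu2 h2
    subst hv
    exact ⟨u1, v1, s, t, hu1, hv1, ha1, h1, hs, ht, P1, Q1, hdis⟩
  obtain ⟨t', ht', ⟨R⟩⟩ : ∃ t', t' ∈ T ∧ (off G (blk H x)).Reachable y t' := by
    by_contra hc
    push Not at hc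
    have hsub : {z | (off G (blk H x)).Reachable y z} ⊆ Tᶜ := fun z hz hzT => hc z hzT hz
    exact hly x (fun h => hxy (Reachable.symm h))
      ⟨hT.subset hsub, (Set.ncard_le_ncard hsub hT).trans hTk⟩
  by_cases hU : ∃ z ∈ R.reverse.support, z ∈ {z | z ∈ P1.support ∨ z ∈ Q1.support}
  · obtain ⟨z, hz, R', -, hR't⟩ := exists_tail_walk _ R.reverse hU
    have hR'P : ∀ e ∈ R'.edges, e ∉ P1.edges := by
      intro e he he2
      obtain ⟨w, hw, hwe⟩ := exists_mem_tail R' e he
      exact hR't w hw (Or.inl (mem_support_of_mem_edge P1 e he2 w hwe))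
    have hR'Q : ∀ e ∈ R'.edges, e ∉ Q1.edges := by
      intro e he he2
      obtain ⟨w, hw, hwe⟩ := exists_mem_tail R' e he
      exact hR't w hw (Or.inr (mem_support_of_mem_edge Q1 e he2 w hwe))
    rcases hz with hz | hz
    · refine ⟨u2, v2, t, s, hu2, hv2, ha2, h2, ht, hs, Q1,
        R'.reverse.append (P1.dropUntil z hz), ?_⟩
      intro e he he2
      rw [Walk.edges_append, List.mem_append, Walk.edges_reverse, List.mem_reverse] at he2
      rcases he2 with he2 | he2
      · exact hR'Q e he2 he
      · exact hdis e (P1.edges_dropUntil_subset_edges hz he2) he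
    · refine ⟨u1, v1, s, t, hu1, hv1, ha1, h1, hs, ht, P1,
        R'.reverse.append (Q1.dropUntil z hz), ?_⟩
      intro e he he2
      rw [Walk.edges_append, List.mem_append, Walk.edges_reverse, List.mem_reverse] at he2
      rcases he2 with he2 | he2
      · exact hR'P e he2 he
      · exact hdis e he (Q1.edges_dropUntil_subset_edges hz he2)
  · push Not at hU
    refine ⟨u1, v1, s, t', hu1, hv1, ha1, h1, hs, ht', P1, R, ?_⟩
    intro e he he2
    induction e using Sym2.ind with
    | _ c d =>
      refine hU c ?_ (Or.inl (Walk.fst_mem_support_of_mem_edges P1 he))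
      rw [Walk.support_reverse, List.mem_reverse]
      exact Walk.fst_mem_support_of_mem_edges R he2

end H5DF
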