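import Pool.Agent.H5.DF.Pot
import Pool.Agent.H5.DG.BGraph

/-!
JOB DG-5 (MP_0d9ad5_pr): exploring a cluster of the thinned configuration.

`ω` has law `perc d p`, `η` has law `perc d r`, independent, `ζ := inter ω (update η e0 false)`.
`AC := {(ω, η) | cluster ζ x = C}`, `C` a finite set of vertices, `x ∈ C`. The edge `b = edge u σ` leaves `C`
(`u ∈ C`, `u + step σ ∉ C`), `b ≠ e0`. `A` is a measurable set of configurations `ω` depending only on the
edges with both ends off `C`. Claim:
`(1 - p r) * P (AC, ω b = true, ω ∈ A) ≤ p (1 - r) * P (AC) * P (A)` (in fact equality).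

PROOF. (1) `AC` depends on `ω` only through the edges touching `C` (an edge with an end in `C`), so by
Fubini and independence of disjoint sets of coordinates `P (AC, ω b, A) = P (AC, ω b) P (A)`.
(2) `AC` forces `ω b && η b = false`, and `AC = {ω b && η b = false} ∩ AC'` with `AC'` (both bits
replaced by false) independent of the bits: `P (AC) = (1 - p r) P (AC')`,
`P (AC, ω b) = p (1 - r) P (AC')`.
-/

namespace H5DF

open MeasureTheory

section Indep

variable {ι : Type*}

/-- A measurable event which depends only on the coordinates in `T` belongs to the σ-algebra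
generated by them. -/
lemma meas_of_dep (T : Set ι) (S : Set (ι → Bool)) (hS : MeasurableSet S)
    (hdep : ∀ ω ω' : ι → Bool, (∀ e ∈ T, ω e = ω' e) → (ω ∈ S → ω' ∈ S)) :
    MeasurableSet[⨆ i ∈ T, MeasurableSpace.comap (fun ω : ι → Bool => ω i) inferInstance] S := by
  classical
  let ρ : (ι → Bool) → (ι → Bool) := fun ω e => if e ∈ T then ω e else false
  have h1 : S = ρ ⁻¹' S := by
    ext ω
    constructor
    · exact hdep ω (ρ ω) fun e he => by simp [ρ, he]
    · exact hdep (ρ ω) ω fun e he => by simp [ρ, he]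
  rw [h1]
  have h2 : @Measurable _ _
      (⨆ i ∈ T, MeasurableSpace.comap (fun ω : ι → Bool => ω i) inferInstance) _ ρ := by
    refine @measurable_pi_lambda _ _ _
      (⨆ i ∈ T, MeasurableSpace.comap (fun ω : ι → Bool => ω i) inferInstance) _ ρ fun e => ?_
    by_cases he : e ∈ T
    · have h3 : (fun ω => ρ ω e) = fun ω : ι → Bool => ω e := by
        funext ω
        simp [ρ, he]
      rw [h3]
      exact (comap_measurable _).mono (le_iSup₂_of_le e he le_rfl) le_rfl
    · have h3 : (fun ω => ρ ω e) = fun _ : ι → Bool => false := by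
        funext ω
        simp [ρ, he]
      rw [h3]
      exact measurable_const
  exact h2 hS

/-- Events depending on disjoint sets of coordinates are independent. -/
lemma indep_split {p : ℝ} (h0 : 0 ≤ p) (h1 : p ≤ 1) (T : Set ι) (S A : Set (ι → Bool))
    (hS : MeasurableSet S) (hA : MeasurableSet A)
    (hdS : ∀ ω ω' : ι → Bool, (∀ e ∈ T, ω e = ω' e) → (ω ∈ S → ω' ∈ S))
    (hdA : ∀ ω ω' : ι → Bool, (∀ e, e ∉ T → ω e = ω' e) → (ω ∈ A → ω' ∈ A)) :
    (Measure.infinitePi fun _ : ι => bern p) (A ∩ S) =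
      (Measure.infinitePi fun _ : ι => bern p) A *
        (Measure.infinitePi fun _ : ι => bern p) S := by
  have := isProb_bern h0 h1
  have hi := ProbabilityTheory.iIndepFun_infinitePi (P := fun _ : ι => bern p)
    (X := fun _ b => b) (fun _ => measurable_id)
  have hI := ProbabilityTheory.indep_iSup_of_disjoint (S := Tᶜ) (T := T)
    (m := fun i : ι => MeasurableSpace.comap (fun ω : ι → Bool => ω i) inferInstance)
    (fun i => (measurable_pi_apply i).comap_le) hi disjoint_compl_left
  exact (ProbabilityTheory.Indep_iff _ _ _).1 hI A S (meas_of_dep Tᶜ A hA hdA)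
    (meas_of_dep T S hS hdS)

lemma indep_fst {p : ℝ} (h0 : 0 ≤ p) (h1 : p ≤ 1) {Y : Type*} [MeasurableSpace Y]
    (ν : Measure Y) [SFinite ν] (T : Set ι) (E : Set ((ι → Bool) × Y)) (hE : MeasurableSet E)
    (hdE : ∀ (η : Y) (ω ω' : ι → Bool), (∀ e ∈ T, ω e = ω' e) → ((ω, η) ∈ E → (ω', η) ∈ E))
    (A : Set (ι → Bool)) (hA : MeasurableSet A)
    (hdA : ∀ ω ω' : ι → Bool, (∀ e, e ∉ T → ω e = ω' e) → (ω ∈ A → ω' ∈ A)) :
    ((Measure.infinitePi fun _ : ι => bern p).prod ν) {q | q.1 ∈ A ∧ q ∈ E} =
      (Measure.infinitePi fun _ : ι => bern p) A *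
        ((Measure.infinitePi fun _ : ι => bern p).prod ν) E := by
  have := isProb_bern h0 h1
  have hAE : MeasurableSet {q : (ι → Bool) × Y | q.1 ∈ A ∧ q ∈ E} :=
    (measurable_fst hA).inter hE
  rw [Measure.prod_apply_symm hAE, Measure.prod_apply_symm hE, ← lintegral_const_mul _
    (measurable_measure_prodMk_right hE)]
  refine lintegral_congr fun η => ?_
  exact indep_split h0 h1 T ((fun ω => (ω, η)) ⁻¹' E) A (measurable_prodMk_right hE) hA
    (hdE η) hdA

lemma indep_snd {r : ℝ} (h0 : 0 ≤ r) (h1 : r ≤ 1) {Y : Type*} [MeasurableSpace Y]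
    (μ : Measure Y) [SFinite μ] (T : Set ι) (E : Set (Y × (ι → Bool))) (hE : MeasurableSet E)
    (hdE : ∀ (η : Y) (ω ω' : ι → Bool), (∀ e ∈ T, ω e = ω' e) → ((η, ω) ∈ E → (η, ω') ∈ E))
    (A : Set (ι → Bool)) (hA : MeasurableSet A)
    (hdA : ∀ ω ω' : ι → Bool, (∀ e, e ∉ T → ω e = ω' e) → (ω ∈ A → ω' ∈ A)) :
    (μ.prod (Measure.infinitePi fun _ : ι => bern r)) {q | q.2 ∈ A ∧ q ∈ E} =
      (Measure.infinitePi fun _ : ι => bern r) A *
        (μ.prod (Measure.infinitePi fun _ : ι => bern r)) E := by
  have := isProb_bern h0 h1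
  have hAE : MeasurableSet {q : Y × (ι → Bool) | q.2 ∈ A ∧ q ∈ E} :=
    (measurable_snd hA).inter hE
  rw [Measure.prod_apply hAE, Measure.prod_apply hE, ← lintegral_const_mul _
    (measurable_measure_prodMk_left hE)]
  refine lintegral_congr fun η => ?_
  exact indep_split h0 h1 T ((fun ω => (η, ω)) ⁻¹' E) A (measurable_prodMk_left hE) hA
    (hdE η) hdA

lemma bern_coord {p : ℝ} (h0 : 0 ≤ p) (h1 : p ≤ 1) (b : ι) (v : Bool) :
    (Measure.infinitePi fun _ : ι => bern p) {ω | ω b = v} = bern p {v} := by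
  have := isProb_bern h0 h1
  have h := Measure.infinitePi_map_eval (fun _ : ι => bern p) b
  have h2 : (Measure.infinitePi fun _ : ι => bern p).map (fun x => x b) {v} = bern p {v} := by
    rw [h]
  rw [← h2, Measure.map_apply (measurable_pi_apply b) MeasurableSet.of_discrete]
  rfl

lemma bern_true (p : ℝ) : bern p {true} = ENNReal.ofReal p := by
  simp [bern]

lemma bern_false (p : ℝ) : bern p {false} = ENNReal.ofReal (1 - p) := by
  simp [bern]

end Indep

variable {d : ℕ}

/-- The cluster of `x` depends only on the edges which touch it. -/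
lemma cluster_congr {ω ω' : Cfg d} {x : V d} {C : Set (V d)} (hc : cluster ω x = C)
    (h : ∀ u ∈ C, ∀ s : Dir d, ω (edge u s) = ω' (edge u s)) : cluster ω' x = C := by
  have hx : x ∈ C := hc ▸ mem_cluster_self ω x
  apply Set.Subset.antisymm
  · intro y hy
    have hy' := (SimpleGraph.reachable_iff_reflTransGen x y).1 hy
    induction hy' with
    | refl => exact hx
    | tail h1 h2 ih =>
      have ih' := ih ((SimpleGraph.reachable_iff_reflTransGen _ _).2 h1)
      obtain ⟨s, rfl, hs⟩ := h2
      rw [← h _ ih' s] at hs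
      rw [← hc] at ih' ⊢
      exact ih'.trans (adj_of_open hs).reachable
  · intro y hy
    rw [← hc] at hy
    have hy' := (SimpleGraph.reachable_iff_reflTransGen x y).1 hy
    induction hy' with
    | refl => exact mem_cluster_self ω' x
    | tail h1 h2 ih =>
      have hz := (SimpleGraph.reachable_iff_reflTransGen _ _).2 h1
      have ih' := ih hz
      obtain ⟨s, rfl, hs⟩ := h2
      have hz' : _ ∈ cluster ω x := hz
      rw [hc] at hz'
      rw [h _ hz' s] at hs
      exact ih'.trans (adj_of_open hs).reachable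

lemma meas_cluster_eq (x : V d) (C : Set (V d)) :
    MeasurableSet {ω : Cfg d | cluster ω x = C} := by
  have : {ω : Cfg d | cluster ω x = C} = ⋂ y : V d,
      ({ω : Cfg d | (G ω).Reachable x y} ∩ {_ω : Cfg d | y ∈ C}) ∪
        ({ω : Cfg d | (G ω).Reachable x y}ᶜ ∩ {_ω : Cfg d | y ∉ C}) := by
    ext ω
    simp only [Set.mem_setOf_eq, Set.mem_iInter, Set.mem_union, Set.mem_inter_iff,
      Set.mem_compl_iff]
    constructor
    · intro h y
      by_cases hy : y ∈ C
      · exact Or.inl ⟨by rw [← h] at hy; exact hy, hy⟩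
      · exact Or.inr ⟨fun h' => hy (by rw [← h]; exact h'), hy⟩
    · intro h
      ext y
      rcases h y with ⟨h1, h2⟩ | ⟨h1, h2⟩
      · exact ⟨fun _ => h2, fun _ => h1⟩
      · exact ⟨fun h' => absurd h' h1, fun h' => absurd h' h2⟩
  rw [this]
  exact MeasurableSet.iInter fun y => ((meas_reach x y).inter (MeasurableSet.const _)).union
    ((meas_reach x y).compl.inter (MeasurableSet.const _))

lemma measurable_upd (e : Ed d) (v : Bool) :
    Measurable fun ω : Cfg d => Function.update ω e v := by
  refine measurable_pi_lambda _ fun e' => ?_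
  by_cases h : e' = e
  · subst h
    simp only [Function.update_self]
    exact measurable_const
  · simp only [Function.update_of_ne h]
    exact measurable_pi_apply e'

/-- The edges which touch `C`. -/
def touch (C : Set (V d)) : Set (Ed d) := {e | e.1 ∈ C ∨ e.1 + Pi.single e.2 1 ∈ C}

lemma edge_mem_touch {C : Set (V d)} {u : V d} (hu : u ∈ C) (s : Dir d) :
    edge u s ∈ touch C := by
  obtain ⟨i, b⟩ := s
  cases b
  · right
    simp [edge, step, add_assoc, ← Pi.single_add, hu]
  · left
    simpa [edge] using hu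

lemma edge_notMem_touch {C : Set (V d)} {u : V d} {s : Dir d} (hu : u ∉ C)
    (hv : u + step s ∉ C) : edge u s ∉ touch C := by
  obtain ⟨i, b⟩ := s
  cases b
  · rintro (h | h)
    · exact hv (by simpa [edge] using h)
    · exact hu (by simpa [edge, step, add_assoc, ← Pi.single_add] using h)
  · rintro (h | h)
    · exact hu (by simpa [edge] using h)
    · exact hv (by simpa [edge, step] using h)

theorem explore_edge (p r : ℝ) (hp0 : 0 ≤ p) (hp1 : p ≤ 1) (hr0 : 0 ≤ r) (hr1 : r ≤ 1)
    (x : V d) (C : Finset (V d)) (hx : x ∈ C) (e0 : Ed d) (u : V d) (σ : Dir d) (hu : u ∈ C)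
    (hv : u + step σ ∉ C) (hne : edge u σ ≠ e0) (A : Set (Cfg d)) (hA : MeasurableSet A)
    (hdep : ∀ ω ω' : Cfg d, (∀ (u : V d) (s : Dir d), u ∉ C → u + step s ∉ C →
      ω (edge u s) = ω' (edge u s)) → (ω ∈ A → ω' ∈ A)) :
    ENNReal.ofReal (1 - p * r) * ((perc d p).prod (perc d r))
        {q | cluster (inter q.1 (Function.update q.2 e0 false)) x = (C : Set (V d)) ∧
          q.1 (edge u σ) = true ∧ q.1 ∈ A} ≤
      ENNReal.ofReal (p * (1 - r)) * (((perc d p).prod (perc d r))
        {q | cluster (inter q.1 (Function.update q.2 e0 false)) x = (C : Set (V d))} *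
        perc d p A) := by
  have := isPP (d := d) hp0 hp1
  have := isPP (d := d) hr0 hr1
  set b : Ed d := edge u σ with hb
  let Z : Cfg d × Cfg d → Cfg d := fun q => inter q.1 (Function.update q.2 e0 false)
  let Z' : Cfg d × Cfg d → Cfg d := fun q =>
    inter (Function.update q.1 b false) (Function.update q.2 e0 false)
  have hZm : Measurable Z := measurable_inter.comp
    (measurable_fst.prodMk ((measurable_upd e0 false).comp measurable_snd))
  have hZm' : Measurable Z' := measurable_inter.comp
    (((measurable_upd b false).comp measurable_fst).prodMk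
      ((measurable_upd e0 false).comp measurable_snd))
  let AC : Set (Cfg d × Cfg d) := {q | cluster (Z q) x = (C : Set (V d))}
  let AC' : Set (Cfg d × Cfg d) := {q | cluster (Z' q) x = (C : Set (V d))}
  have hACm : MeasurableSet AC := hZm (meas_cluster_eq x _)
  have hACm' : MeasurableSet AC' := hZm' (meas_cluster_eq x _)
  -- the value of `ζ` at `b`
  have hZb : ∀ q, Z q b = (q.1 b && q.2 b) := by
    intro q
    simp only [Z, inter, Function.update_of_ne hne]
  have hZZ : ∀ q : Cfg d × Cfg d, (q.1 b && q.2 b) = false → Z q = Z' q := by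
    intro q hq
    funext e
    by_cases he : e = b
    · subst he
      rw [hZb, hq]
      simp [Z', inter]
    · simp only [Z, Z', inter, Function.update_of_ne he]
  have hACb : ∀ q ∈ AC, (q.1 b && q.2 b) = false := by
    intro q hq
    by_contra h
    have h1 : Z q (edge u σ) = true := by
      rw [← hb, hZb]
      simpa using h
    have h2 : u ∈ cluster (Z q) x := by
      rw [show cluster (Z q) x = (C : Set (V d)) from hq]
      exact hu
    have h3 : u + step σ ∈ cluster (Z q) x := SimpleGraph.Reachable.trans h2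
      (adj_of_open h1).reachable
    rw [show cluster (Z q) x = (C : Set (V d)) from hq] at h3
    exact hv h3
  have hAC : ∀ q, q ∈ AC ↔ (q.1 b && q.2 b) = false ∧ q ∈ AC' := by
    intro q
    constructor
    · intro hq
      refine ⟨hACb q hq, ?_⟩
      show cluster (Z' q) x = _
      rw [← hZZ q (hACb q hq)]
      exact hq
    · rintro ⟨h1, h2⟩
      show cluster (Z q) x = _
      rw [hZZ q h1]
      exact h2
  -- the four events
  let M := ((perc d p).prod (perc d r)) AC'
  let E2 : Set (Cfg d × Cfg d) := {q | q.2 ∈ {η : Cfg d | η b = false} ∧ q ∈ AC'}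
  have hmb : ∀ v : Bool, MeasurableSet {ω : Cfg d | ω b = v} := fun v =>
    measurable_pi_apply (X := fun _ : Ed d => Bool) b (MeasurableSet.of_discrete (s := {v}))
  have hE2m : MeasurableSet E2 := (measurable_snd (hmb false)).inter hACm'
  have hE2 : ((perc d p).prod (perc d r)) E2 = ENNReal.ofReal (1 - r) * M := by
    have h := indep_snd (ι := Ed d) hr0 hr1 (perc d p) {b}ᶜ AC' hACm' (by
      intro ω η η' hη h
      show cluster (Z' (ω, η')) x = _
      have : Z' (ω, η') = Z' (ω, η) := by
        funext e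
        by_cases he : e = b
        · subst he
          simp [Z', inter]
        · by_cases he0 : e = e0
          · subst he0
            simp [Z', inter]
          · simp only [Z', inter, Function.update_of_ne he, Function.update_of_ne he0]
            rw [hη e he]
      rw [this]
      exact h) {η | η b = false} (hmb false) (by
      intro ω ω' h hω
      have h2 := h b (by simp)
      show ω' b = false
      rw [← h2]
      exact hω)
    rw [bern_coord hr0 hr1, bern_false] at h
    exact h
  have hE1 : ∀ (v : Bool) (E : Set (Cfg d × Cfg d)), MeasurableSet E →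
      (∀ (η ω ω' : Cfg d), (∀ e ∈ ({b}ᶜ : Set (Ed d)), ω e = ω' e) →
        ((ω, η) ∈ E → (ω', η) ∈ E)) →
      ((perc d p).prod (perc d r)) {q | q.1 ∈ {ω : Cfg d | ω b = v} ∧ q ∈ E} =
        bern p {v} * ((perc d p).prod (perc d r)) E := by
    intro v E hE hdE
    have h := indep_fst (ι := Ed d) hp0 hp1 (perc d r) {b}ᶜ E hE hdE {ω | ω b = v} (hmb v) (by
      intro ω ω' h hω
      have h2 := h b (by simp)
      show ω' b = v
      rw [← h2]
      exact hω)
    rw [bern_coord hp0 hp1] at h
    exact h
  have hdAC' : ∀ (η ω ω' : Cfg d), (∀ e ∈ ({b}ᶜ : Set (Ed d)), ω e = ω' e) →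
      ((ω, η) ∈ AC' → (ω', η) ∈ AC') := by
    intro η ω ω' h hω
    show cluster (Z' (ω', η)) x = _
    have : Z' (ω', η) = Z' (ω, η) := by
      funext e
      by_cases he : e = b
      · subst he
        simp [Z', inter]
      · simp only [Z', inter, Function.update_of_ne he]
        rw [h e he]
    rw [this]
    exact hω
  have hdE2 : ∀ (η ω ω' : Cfg d), (∀ e ∈ ({b}ᶜ : Set (Ed d)), ω e = ω' e) →
      ((ω, η) ∈ E2 → (ω', η) ∈ E2) := fun η ω ω' h hω => ⟨hω.1, hdAC' η ω ω' h hω.2⟩
  have hF : ((perc d p).prod (perc d r)) {q | q.1 ∈ {ω : Cfg d | ω b = false} ∧ q ∈ AC'} =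
      ENNReal.ofReal (1 - p) * M := by
    rw [hE1 false AC' hACm' hdAC', bern_false]
  have hTr : ((perc d p).prod (perc d r)) {q | q.1 ∈ {ω : Cfg d | ω b = true} ∧ q ∈ E2} =
      ENNReal.ofReal p * (ENNReal.ofReal (1 - r) * M) := by
    rw [hE1 true E2 hE2m hdE2, bern_true, hE2]
  -- the event `AC` and the event `AC, ω b = true`
  have hACt : {q : Cfg d × Cfg d | q.1 ∈ {ω : Cfg d | ω b = true} ∧ q ∈ E2} =
      {q | q ∈ AC ∧ q.1 b = true} := by
    ext q
    simp only [Set.mem_setOf_eq, E2]
    rw [hAC q]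
    constructor
    · rintro ⟨h1, h2, h3⟩
      exact ⟨⟨by rw [h2]; simp, h3⟩, h1⟩
    · rintro ⟨⟨h1, h2⟩, h3⟩
      rw [h3] at h1
      exact ⟨h3, by simpa using h1, h2⟩
  have hP1 : ((perc d p).prod (perc d r)) {q | q ∈ AC ∧ q.1 b = true} =
      ENNReal.ofReal p * (ENNReal.ofReal (1 - r) * M) := by
    rw [← hACt, hTr]
  have hPAC : ((perc d p).prod (perc d r)) AC = ENNReal.ofReal (1 - p * r) * M := by
    have hu1 : AC = {q | q.1 ∈ {ω : Cfg d | ω b = false} ∧ q ∈ AC'} ∪
        {q | q ∈ AC ∧ q.1 b = true} := by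
      ext q
      show q ∈ AC ↔ (q.1 b = false ∧ q ∈ AC') ∨ (q ∈ AC ∧ q.1 b = true)
      rw [hAC q]
      constructor
      · rintro ⟨h1, h2⟩
        by_cases hq : q.1 b = true
        · exact Or.inr ⟨⟨h1, h2⟩, hq⟩
        · exact Or.inl ⟨by simpa using hq, h2⟩
      · rintro (⟨h1, h2⟩ | ⟨h1, -⟩)
        · exact ⟨by rw [show q.1 b = false from h1]; simp, h2⟩
        · exact h1
    have hdj : Disjoint {q : Cfg d × Cfg d | q.1 ∈ {ω : Cfg d | ω b = false} ∧ q ∈ AC'}
        {q | q ∈ AC ∧ q.1 b = true} := by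
      rw [Set.disjoint_left]
      rintro q ⟨h1, -⟩ ⟨-, h2⟩
      rw [show q.1 b = false from h1] at h2
      exact absurd h2 (by simp)
    have hm2 : MeasurableSet {q : Cfg d × Cfg d | q ∈ AC ∧ q.1 b = true} :=
      hACm.inter (measurable_fst (hmb true))
    rw [hu1, measure_union hdj hm2, hF, hP1, ← mul_assoc, ← add_mul, ← ENNReal.ofReal_mul hp0,
      ← ENNReal.ofReal_add (by linarith) (mul_nonneg hp0 (by linarith))]
    congr 2
    ring
  -- independence of `A`
  have hfin : ((perc d p).prod (perc d r))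
      {q | cluster (inter q.1 (Function.update q.2 e0 false)) x = (C : Set (V d)) ∧
        q.1 b = true ∧ q.1 ∈ A} =
      perc d p A * (ENNReal.ofReal p * (ENNReal.ofReal (1 - r) * M)) := by
    have hm2 : MeasurableSet {q : Cfg d × Cfg d | q ∈ AC ∧ q.1 b = true} :=
      hACm.inter (measurable_fst (hmb true))
    have h := indep_fst (ι := Ed d) hp0 hp1 (perc d r) (touch (C : Set (V d)))
      {q | q ∈ AC ∧ q.1 b = true} hm2 (by
        rintro η ω ω' h ⟨h1, h2⟩
        refine ⟨?_, ?_⟩
        · show cluster (Z (ω', η)) x = _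
          refine cluster_congr (ω := Z (ω, η)) h1 ?_
          intro w hw s
          simp only [Z, inter]
          rw [h _ (edge_mem_touch hw s)]
        · show ω' b = true
          rw [← h b (edge_mem_touch (C := (C : Set (V d))) (by exact_mod_cast hu) σ)]
          exact h2) A hA (by
        intro ω ω' h
        refine hdep ω ω' ?_
        intro w s hw hws
        exact h _ (edge_notMem_touch (by exact_mod_cast hw) (by exact_mod_cast hws)))
    have hset : {q : Cfg d × Cfg d |
        cluster (inter q.1 (Function.update q.2 e0 false)) x = (C : Set (V d)) ∧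
        q.1 b = true ∧ q.1 ∈ A} = {q | q.1 ∈ A ∧ q ∈ {q | q ∈ AC ∧ q.1 b = true}} := by
      ext q
      constructor
      · rintro ⟨h1, h2, h3⟩
        exact ⟨h3, h1, h2⟩
      · rintro ⟨h3, h1, h2⟩
        exact ⟨h1, h2, h3⟩
    rw [hset]
    refine h.trans ?_
    exact congrArg (perc d p A * ·) hP1
  rw [hfin]
  have hPAC' : ((perc d p).prod (perc d r))
      {q | cluster (inter q.1 (Function.update q.2 e0 false)) x = (C : Set (V d))} =
      ENNReal.ofReal (1 - p * r) * M := hPAC
  rw [hPAC', ENNReal.ofReal_mul hp0]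
  refine le_of_eq ?_
  ring

end H5DF
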