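import Pool.Agent.H5.DG.BPair
import Pool.Agent.H5.DG.BArms
import Pool.Agent.H5.DG.ArmsBK
import Pool.Agent.H5.DG.Indep
import Pool.Agent.H5.DF.Grad

/-!
Exploring the block of an end of a live edge (MP_0d9ad5_pr).
-/

namespace H5DF

open MeasureTheory ENNReal

variable {d : ℕ}

/-- The second moment `∑ (1 + |z|^2) τ(z)`. -/
noncomputable def mom (d : ℕ) (p : ℝ) : ENNReal :=
  ∑' z : V d, ENNReal.ofReal (1 + ‖z‖ ^ 2) * tau d p z

/-- Average of the coordinate over a set, relative to `x`. -/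
noncomputable def dvs (i0 : Fin d) (S : Set (V d)) (x : V d) : ℝ :=
  (∑ᶠ z ∈ S, ((z i0 : ℝ) - x i0)) / S.ncard

/-- The thinned configuration with the edge `e` closed. -/
noncomputable def zt (e : Ed d) (q : Cfg d × Cfg d) : Cfg d :=
  inter q.1 (Function.update q.2 e false)

lemma dvs_sq (i0 : Fin d) (C : Finset (V d)) (x : V d) (hx : x ∈ C) :
    (C.card : ℝ) * (1 + dvs i0 (C : Set (V d)) x ^ 2) ≤ ∑ z ∈ C, (1 + ‖z - x‖ ^ 2) := by
  have hc : (0 : ℝ) < C.card := by
    exact_mod_cast Finset.card_pos.2 ⟨x, hx⟩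
  unfold dvs
  rw [finsum_mem_coe_finset, Set.ncard_coe_finset, Finset.sum_add_distrib]
  simp only [Finset.sum_const, nsmul_eq_mul, mul_one]
  have h1 : (∑ z ∈ C, ((z i0 : ℝ) - x i0)) ^ 2 ≤ C.card * ∑ z ∈ C, ((z i0 : ℝ) - x i0) ^ 2 :=
    sq_sum_le_card_mul_sum_sq
  have h2 : ∑ z ∈ C, ((z i0 : ℝ) - x i0) ^ 2 ≤ ∑ z ∈ C, ‖z - x‖ ^ 2 := by
    refine Finset.sum_le_sum fun z _ => ?_
    have h3 := abs_coord_le i0 (z - x)
    have h4 : ((z i0 : ℝ) - x i0) ^ 2 = |(((z - x) i0 : ℤ) : ℝ)| ^ 2 := by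
      rw [sq_abs]; simp
    rw [h4]
    gcongr
  have h5 : (C.card : ℝ) * ((∑ z ∈ C, ((z i0 : ℝ) - x i0)) / C.card) ^ 2 =
      (∑ z ∈ C, ((z i0 : ℝ) - x i0)) ^ 2 / C.card := by
    field_simp
  rw [mul_add, mul_one, h5]
  have h6 : (∑ z ∈ C, ((z i0 : ℝ) - x i0)) ^ 2 / C.card ≤ ∑ z ∈ C, ‖z - x‖ ^ 2 := by
    rw [div_le_iff₀ hc]
    calc (∑ z ∈ C, ((z i0 : ℝ) - x i0)) ^ 2 ≤ C.card * ∑ z ∈ C, ((z i0 : ℝ) - x i0) ^ 2 := h1
      _ ≤ C.card * ∑ z ∈ C, ‖z - x‖ ^ 2 := by gcongr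
      _ = _ := by ring
  linarith

lemma measurable_zt (e : Ed d) : Measurable (zt (d := d) e) := by
  have h1 : Measurable fun q : Cfg d × Cfg d => (q.1, (Function.update q.2 e false : Cfg d)) :=
    measurable_fst.prodMk ((measurable_upd e false).comp measurable_snd)
  exact measurable_inter.comp h1

lemma zt_le (e : Ed d) (q : Cfg d × Cfg d) : ∀ e', zt e q e' = true →
    inter q.1 q.2 e' = true := by
  intro e' he
  simp only [zt, inter, Bool.and_eq_true] at he ⊢
  refine ⟨he.1, ?_⟩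
  by_cases h5 : e' = e
  · rw [h5] at he
    simp at he
  · rw [Function.update_of_ne h5] at he
    exact he.2

lemma zt_le' (e : Ed d) (q : Cfg d × Cfg d) : ∀ e', zt e q e' = true → q.1 e' = true := by
  intro e' he
  simp only [zt, inter, Bool.and_eq_true] at he
  exact he.1

/-- The edges (as vertex and direction) leaving `C`, other than `e0`. -/
noncomputable def bdry (C : Finset (V d)) (e0 : Ed d) : Finset (V d × Dir d) :=
  open Classical in
  (C ×ˢ (Finset.univ : Finset (Dir d))).filter fun b => b.1 + step b.2 ∉ C ∧ edge b.1 b.2 ≠ e0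

lemma card_bdry (C : Finset (V d)) (e0 : Ed d) : (bdry C e0).card ≤ 2 * d * C.card := by
  classical
  unfold bdry
  refine (Finset.card_filter_le _ _).trans ?_
  rw [Finset.card_product, Finset.card_univ, Fintype.card_prod, Fintype.card_fin,
    Fintype.card_bool]
  exact le_of_eq (by ring)

lemma sym_of_edge_eq {u x : V d} {s σ : Dir d} (h : edge u s = edge x σ) :
    s(u, u + step s) = s(x, x + step σ) := by
  obtain ⟨i, b⟩ := s
  obtain ⟨j, c⟩ := σ
  have key : ∀ (x : V d) (i : Fin d), x + step (i, false) + step (i, true) = x := by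
    intro x i
    have := step_opp (d := d) (i, true)
    simp only [opp, Bool.not_true] at this
    rw [this]; abel
  cases b <;> cases c <;> simp only [edge, if_true, if_false, Bool.false_eq_true,
    Prod.mk.injEq] at h
  · obtain ⟨h1, rfl⟩ := h
    have : u = x := by simpa using h1
    rw [this]
  · obtain ⟨h1, rfl⟩ := h
    have : u = x + step (i, true) := by
      rw [← h1, key]
    rw [← h1, key, h1, Sym2.eq_swap, this]
  · obtain ⟨h1, rfl⟩ := h
    rw [h1, key, Sym2.eq_swap]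
  · obtain ⟨h1, rfl⟩ := h
    rw [h1]

end H5DF

/-!
The key estimate: exploring the block of an end of a live edge (MP_0d9ad5_pr).
-/

namespace H5DF

open MeasureTheory ENNReal

variable {d : ℕ}

/-- The far set. -/
def farT (M : ℕ) (x : V d) : Set (V d) := {z | (M : ℝ) ≤ ‖z - x‖}

lemma farT_compl (M : ℕ) (x : V d) : (farT M x)ᶜ.Finite ∧ (farT M x)ᶜ.ncard ≤ (2 * M + 1) ^ d := by
  have hsub : (farT M x)ᶜ ⊆ ((Box d M).image (fun z => z + x) : Finset (V d)) := by
    intro z hz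
    simp only [farT, Set.mem_compl_iff, Set.mem_setOf_eq, not_le] at hz
    rw [Finset.coe_image]
    exact ⟨z - x, mem_Box.2 hz.le, by simp⟩
  refine ⟨(Finset.finite_toSet _).subset hsub, ?_⟩
  refine (Set.ncard_le_ncard hsub (Finset.finite_toSet _)).trans ?_
  rw [Set.ncard_coe_finset]
  exact Finset.card_image_le.trans (card_Box M).le

/-- The event that the edge at `x` in direction `σ` has two live ends in different blocks. -/
def Ev (K k : ℕ) (x : V d) (σ : Dir d) : Set (Cfg d × Cfg d) :=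
  {q | q.1 (edge x σ) = true ∧ (cluster q.1 x).Infinite ∧
    BLive (G q.1) (Hb K (zt (edge x σ) q)) k x ∧
    BLive (G q.1) (Hb K (zt (edge x σ) q)) k (x + step σ) ∧
    Good K (zt (edge x σ) q) x ∧ x + step σ ∉ cluster (zt (edge x σ) q) x}

/-- The explored event. -/
def Sx (x : V d) (σ : Dir d) (M : ℕ) (C : Finset (V d)) (b : V d × Dir d) :
    Set (Cfg d × Cfg d) :=
  {q | cluster (zt (edge x σ) q) x = (C : Set (V d)) ∧ q.1 (edge b.1 b.2) = true ∧
    q.1 ∈ {ω | TwoArms (C : Set (V d)) (farT M x) (b.1 + step b.2) (x + step σ) ω}}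

lemma meas_Sx (x : V d) (σ : Dir d) (M : ℕ) (C : Finset (V d)) (b : V d × Dir d) :
    MeasurableSet (Sx x σ M C b) := by
  have h1 : MeasurableSet {q : Cfg d × Cfg d |
      cluster (zt (edge x σ) q) x = (C : Set (V d))} :=
    (measurable_zt (edge x σ)) (meas_cluster_eq x (C : Set (V d)))
  have h2 : MeasurableSet {q : Cfg d × Cfg d | q.1 (edge b.1 b.2) = true} :=
    measurable_fst (meas_open (edge b.1 b.2))
  have h3 : MeasurableSet {q : Cfg d × Cfg d | q.1 ∈ {ω | TwoArms (C : Set (V d)) (farT M x)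
      (b.1 + step b.2) (x + step σ) ω}} :=
    measurable_fst (meas_twoArms _ _ _ _)
  exact h1.inter (h2.inter h3)

lemma good_finite {K : ℕ} {ζ : Cfg d} {x : V d} (h : Good K ζ x) : (cluster ζ x).Finite := by
  rw [← blk_good h]
  exact blk_finite K ζ x

/-- A point of the event is in one of the explored events. -/
lemma Ev_sub (K M k : ℕ) (hk : (2 * M + 1) ^ d ≤ k) (hKM : K < M) (x : V d) (σ : Dir d)
    (q : Cfg d × Cfg d) (hq : q ∈ Ev K k x σ) (hfin : (cluster (zt (edge x σ) q) x).Finite) :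
    ∃ b ∈ bdry hfin.toFinset (edge x σ), q ∈ Sx x σ M hfin.toFinset b := by
  classical
  obtain ⟨hop, hinf, hl1, hl2, hg, hy⟩ := hq
  have hHG : Hb K (zt (edge x σ) q) ≤ G q.1 := Hb_le K _ _ (zt_le' (edge x σ) q)
  have hblk : blk (Hb K (zt (edge x σ) q)) x = cluster (zt (edge x σ) q) x := blk_good hg
  obtain ⟨hT1, hT2⟩ := farT_compl M x
  have hCT : ∀ z ∈ blk (Hb K (zt (edge x σ) q)) x, z ∉ farT M x := by
    intro z hz hzT
    have h1 := blk_norm hz
    have h2 : (M : ℝ) ≤ ‖z - x‖ := hzT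
    have h3 : (K : ℝ) < M := by exact_mod_cast hKM
    linarith
  have hb := barms (G q.1) (Hb K (zt (edge x σ) q)) hHG k x (x + step σ) (farT M x) hT1
      (hT2.trans hk) hCT hinf (adj_of_open hop) (by rw [hblk]; exact hy) hl1 hl2
  rw [hblk] at hb
  obtain ⟨u, v, s, t, hu, hv, hadj, hne, hs, ht, P, Q, hPQ⟩ := hb
  obtain ⟨τ, rfl, hτ⟩ := hadj
  refine ⟨(u, τ), ?_, ?_⟩
  · unfold bdry
    rw [Finset.mem_filter, Finset.mem_product]
    refine ⟨⟨by simpa using hu, Finset.mem_univ _⟩, by simpa using hv, ?_⟩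
    intro h
    exact hne (sym_of_edge_eq h)
  · refine ⟨by simp, hτ, ?_⟩
    simp only [Set.mem_setOf_eq, Set.Finite.coe_toFinset]
    exact ⟨s, hs, t, ht, P, Q, hPQ⟩

/-- The probability of the explored event. -/
lemma Sx_le (p r : ℝ) (hp0 : 0 ≤ p) (hp1 : p ≤ 1) (hr0 : 0 ≤ r) (hr1 : r ≤ 1)
    (K M R : ℕ) (hR : R + K + 1 ≤ M) (x : V d) (σ : Dir d) (C : Finset (V d)) (hx : x ∈ C)
    (hCK : ∀ z ∈ C, ‖z - x‖ ≤ K) (b : V d × Dir d) (hb : b ∈ bdry C (edge x σ)) :
    ENNReal.ofReal (1 - p * r) * ((perc d p).prod (perc d r)) (Sx x σ M C b) ≤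
      ENNReal.ofReal (p * (1 - r)) * (((perc d p).prod (perc d r))
        {q | cluster (zt (edge x σ) q) x = (C : Set (V d))} *
        ENNReal.ofReal (((perc d p).real {ω | Arm R ω}) ^ 2)) := by
  classical
  unfold bdry at hb
  rw [Finset.mem_filter, Finset.mem_product] at hb
  obtain ⟨⟨hu, -⟩, hv, hne⟩ := hb
  have h1 := explore_edge p r hp0 hp1 hr0 hr1 x C hx (edge x σ) b.1 b.2 hu hv hne
    {ω | TwoArms (C : Set (V d)) (farT M x) (b.1 + step b.2) (x + step σ) ω}
    (meas_twoArms _ _ _ _) (fun ω ω' h hω => twoArms_dep _ _ _ _ ω ω' h hω)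
  refine h1.trans ?_
  have h2 : perc d p {ω | TwoArms (C : Set (V d)) (farT M x) (b.1 + step b.2) (x + step σ) ω} ≤
      ENNReal.ofReal (((perc d p).real {ω | Arm R ω}) ^ 2) := by
    refine twoArms_le p hp0 hp1 _ _ _ _ R ?_
    intro z hz
    have h3 : (M : ℝ) ≤ ‖z - x‖ := hz
    have h4 : (R : ℝ) + K + 1 ≤ M := by exact_mod_cast hR
    have h5 := hCK b.1 hu
    have h6 : ‖(step b.2 : V d)‖ ≤ 1 := step_norm_le b.2
    have h7 : ‖(step σ : V d)‖ ≤ 1 := step_norm_le σ
    have hK0 : (0 : ℝ) ≤ K := Nat.cast_nonneg _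
    constructor
    · have h8 : z - x = (z - (b.1 + step b.2)) + ((b.1 - x) + step b.2) := by abel
      have h9 : ‖z - x‖ ≤ ‖z - (b.1 + step b.2)‖ + (‖b.1 - x‖ + ‖(step b.2 : V d)‖) := by
        rw [h8]
        exact (norm_add_le _ _).trans (by gcongr; exact norm_add_le _ _)
      linarith
    · have h8 : z - x = (z - (x + step σ)) + step σ := by abel
      have h9 : ‖z - x‖ ≤ ‖z - (x + step σ)‖ + ‖(step σ : V d)‖ := by
        rw [h8]
        exact norm_add_le _ _
      linarith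
  exact mul_le_mul_right (mul_le_mul_right h2 _) _

end H5DF
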