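import Pool.Agent.H5.DG.BGraph

/-!
JOB DG-1 (MP_0d9ad5_pr): attachment blocks in an infinite component. Pure graph theory; it is the
block version of Pool/Agent/H5/DF/Attach.lean (which may be copied from, see helper49's proof).

`H ≤ G`; a block is `blk H y`. `K B x := {z | (off G B).Reachable x z}` for a block `B` not
containing `x`.

PROOF (paper). `blive_congr`: if `H.Reachable x x'` then `x, x'` have the same blocks to consider and
`K B x = K B x'` (the block of `x` is disjoint from `B` and connected in `off G B`).
Let the `G`-component of `x` be infinite and `x` not live. Choose a block `B` not containing `x` with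
`K := K B x` finite, of size `≤ k` and MAXIMAL. (1) A `G`-edge leaving `K` ends in `B`; there is one,
`v w` with `v ∈ K`, `w ∈ B`. (2) every `z ∈ K` is not live (`K B z = K`). (3) `w` is live: suppose a
block `B' ≠ B` has `K' := K B' w` finite, size `≤ k`. If `B'` meets `K` then `B' ⊆ K` (`B'` is
connected by `H ≤ G` and disjoint from `B`); then everything in the component of `x` outside `K` is
in `K'` (a walk from `x` to it leaves `K` for the last time into `B`, and `B ⊆ K'`): infinite,
contradiction. If `B'` does not meet `K`: `K ∪ {w} ⊆ K'` and `x ∉ B'`, `K B' x = K'`, contradicting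
maximality. (4) So `BAtt G H k x w`, by a path inside `K` to `v`, then `w` (length `≤ |K| ≤ k`).
`batt_iff` (for `x` with infinite component): if `x` is live, `BAtt x w` forces `w ∈ blk H x` (look at
the first vertex `x` of the walk) and conversely a walk inside the block does. If `x` is not live:
take `K, B, w0` as above. If `BAtt x w1` then `w1 ∉ K`, the walk leaves `K` into a vertex of `B`,
which is live, hence in `blk H w1`; so `blk H w1 = B`. Conversely every vertex of `B` works (extend the
walk inside the block, use `blive_congr`).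
`batt_adj`: `x` not live, `G.Adj x y`. If `y` is not live put the edge `y x` in front. If `y` is live
then `BAtt x y` by the one-edge walk, so `w ∈ blk H y` by `batt_iff`, and `batt_live` for `y`.
-/

namespace H5DF

variable {V : Type*}

theorem off_not_mem {G : SimpleGraph V} {S : Set V} {x z : V} (hx : x ∉ S)
    (h : (off G S).Reachable x z) : z ∉ S := by
  rw [SimpleGraph.reachable_iff_reflTransGen] at h
  induction h with
  | refl => exact hx
  | tail _ hab _ => exact hab.2.2

theorem mem_blk_symm {H : SimpleGraph V} {x y : V} (h : y ∈ blk H x) : x ∈ blk H y :=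
  SimpleGraph.Reachable.symm h

theorem mem_blk_trans {H : SimpleGraph V} {x y z : V} (h : y ∈ blk H x) (h' : z ∈ blk H y) :
    z ∈ blk H x := SimpleGraph.Reachable.trans h h'

theorem blk_eq {H : SimpleGraph V} {x y : V} (h : y ∈ blk H x) : blk H y = blk H x := by
  ext z
  exact ⟨fun h1 => mem_blk_trans h h1, fun h1 => mem_blk_trans (mem_blk_symm h) h1⟩

theorem off_of_blk {G H : SimpleGraph V} (hHG : H ≤ G) {x y z : V} (hx : x ∉ blk H y)
    (h : H.Reachable x z) : (off G (blk H y)).Reachable x z := by
  rw [SimpleGraph.reachable_iff_reflTransGen] at h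
  induction h with
  | refl => exact SimpleGraph.Reachable.refl x
  | tail h3 hab ih =>
    rename_i a b
    have ha : a ∉ blk H y := off_not_mem hx ih
    have hb : b ∉ blk H y := fun hb => ha (mem_blk_trans hb hab.symm.reachable)
    have hadj : (off G (blk H y)).Adj a b := ⟨hHG hab, ha, hb⟩
    exact SimpleGraph.Reachable.trans ih hadj.reachable

theorem blive_congr (G H : SimpleGraph V) (hHG : H ≤ G) (k : ℕ) (x x' : V)
    (h : H.Reachable x x') (hl : BLive G H k x) : BLive G H k x' := by
  intro y hy
  have hyx : y ∉ blk H x := fun h1 => hy (mem_blk_trans (mem_blk_symm h) h1)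
  have hxy : x ∉ blk H y := fun h1 => hyx (mem_blk_symm h1)
  have h1 := off_of_blk hHG hxy h
  have h2 : {z | (off G (blk H y)).Reachable x z} = {z | (off G (blk H y)).Reachable x' z} := by
    ext z
    exact ⟨fun h3 => SimpleGraph.Reachable.trans (SimpleGraph.Reachable.symm h1) h3,
      fun h3 => SimpleGraph.Reachable.trans h1 h3⟩
  have h3 := hl y hyx
  rw [h2] at h3
  exact h3

/-- The small side of the maximal cutting block. -/
theorem bcore (G H : SimpleGraph V) (hHG : H ≤ G) (k : ℕ) (x : V)
    (hx : {y | G.Reachable x y}.Infinite) (hl : ¬ BLive G H k x) :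
    ∃ (K : Set V) (v w : V), x ∈ K ∧ v ∈ K ∧ w ∉ K ∧ K.Finite ∧
      K.ncard ≤ k ∧ (∀ y ∈ K, ¬ BLive G H k y) ∧ BLive G H k w ∧ G.Adj v w ∧
      (∀ a ∈ K, ∀ b, b ∉ K → G.Adj a b → b ∈ blk H w) ∧
      K = {z | (off G (blk H w)).Reachable x z} := by
  classical
  let C : V → V → Set V := fun y x => {z | (off G (blk H y)).Reachable x z}
  have hex : ∃ n, ∃ y, y ∉ blk H x ∧ (C y x).Finite ∧ (C y x).ncard ≤ k ∧ (C y x).ncard = n := by
    unfold BLive at hl
    push Not at hl
    obtain ⟨y, h0, h1, h2⟩ := hl
    exact ⟨_, y, h0, h1, h2, rfl⟩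
  obtain ⟨n0, hn0⟩ := hex
  let Q : ℕ → Prop := fun n => ∃ y, y ∉ blk H x ∧ (C y x).Finite ∧ (C y x).ncard ≤ k ∧
    (C y x).ncard = n
  have hn0k : n0 ≤ k := by
    obtain ⟨g, -, -, h2, h3⟩ := hn0
    omega
  have hQ : Q (Nat.findGreatest Q k) := Nat.findGreatest_spec hn0k hn0
  obtain ⟨y0, hy0, hfin, hcard, hmax⟩ := hQ
  have hmaxi : ∀ y, y ∉ blk H x → (C y x).Finite → (C y x).ncard ≤ k →
      (C y x).ncard ≤ (C y0 x).ncard := by
    intro y h0 h1 h2
    rw [hmax]
    exact Nat.le_findGreatest h2 ⟨y, h0, h1, h2, rfl⟩
  set K := C y0 x with hK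
  have hxK : x ∈ K := SimpleGraph.Reachable.refl x
  have hxB : x ∉ blk H y0 := fun h => hy0 (mem_blk_symm h)
  have hKB : ∀ a ∈ K, a ∉ blk H y0 := fun a ha => off_not_mem hxB ha
  have hexit : ∀ a ∈ K, ∀ b, b ∉ K → G.Adj a b → b ∈ blk H y0 := by
    intro a ha b hb hab
    by_contra hc
    apply hb
    have hadj : (off G (blk H y0)).Adj a b := ⟨hab, hKB a ha, hc⟩
    exact SimpleGraph.Reachable.trans ha hadj.reachable
  obtain ⟨z, hz, hzK⟩ : ∃ z, G.Reachable x z ∧ z ∉ K := by
    by_contra hc
    push Not at hc
    exact hx (hfin.subset fun y hy => hc y hy)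
  obtain ⟨p⟩ := hz
  obtain ⟨d, -, hd1, hd2⟩ := p.exists_boundary_dart K hxK hzK
  set v := d.fst with hv
  set w := d.snd with hw
  have hvw : G.Adj v w := d.adj
  have hwB : w ∈ blk H y0 := hexit v hd1 w hd2 hvw
  have hBeq : blk H w = blk H y0 := blk_eq hwB
  have hnl : ∀ y ∈ K, ¬ BLive G H k y := by
    intro y hy h
    have h1 : y0 ∉ blk H y := fun h2 => hKB y hy (mem_blk_symm h2)
    have h2 : C y0 y = K := by
      ext z
      exact ⟨fun h => SimpleGraph.Reachable.trans hy h,
        fun h => SimpleGraph.Reachable.trans (SimpleGraph.Reachable.symm hy) h⟩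
    refine h y0 h1 ⟨?_, ?_⟩
    · show (C y0 y).Finite
      rw [h2]; exact hfin
    · show (C y0 y).ncard ≤ k
      rw [h2]; exact hcard
  have hlive : BLive G H k w := by
    rintro y' hy' ⟨h1, h2⟩
    have h1' : (C y' w).Finite := h1
    have h2' : (C y' w).ncard ≤ k := h2
    have hwB' : w ∉ blk H y' := fun h => hy' (mem_blk_symm h)
    have hBK' : ∀ b ∈ blk H y0, b ∈ C y' w := by
      intro b hb
      refine off_of_blk hHG hwB' ?_
      rw [← hBeq] at hb
      exact hb
    by_cases hmeet : ∃ c, c ∈ blk H y' ∧ c ∈ K
    · obtain ⟨c, hc, hcK⟩ := hmeet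
      have hB'K : ∀ b ∈ blk H y', b ∈ K := by
        intro b hb
        have h3 : (off G (blk H y0)).Reachable c b :=
          off_of_blk hHG (hKB c hcK) (mem_blk_trans (mem_blk_symm hc) hb)
        exact SimpleGraph.Reachable.trans hcK h3
      apply hx
      refine (hfin.union h1').subset ?_
      intro z hz
      rw [Set.mem_ofPred_eq, SimpleGraph.reachable_iff_reflTransGen] at hz
      induction hz with
      | refl => exact Or.inl hxK
      | tail h3 hab ih =>
        rename_i a b
        by_cases hbK : b ∈ K
        · exact Or.inl hbK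
        · right
          by_cases haK : a ∈ K
          · exact hBK' b (hexit a haK b hbK hab)
          · have haK' : a ∈ C y' w := ih.resolve_left haK
            have hadj : (off G (blk H y')).Adj a b :=
              ⟨hab, off_not_mem hwB' haK', fun h => hbK (hB'K b h)⟩
            exact SimpleGraph.Reachable.trans haK' hadj.reachable
    · push Not at hmeet
      have hnB' : ∀ a ∈ K, a ∉ blk H y' := fun a ha h => hmeet a h ha
      have hin : ∀ y ∈ K, y ∈ C y' w := by
        intro y hy
        have hvy : (off G (blk H y0)).Reachable v y :=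
          SimpleGraph.Reachable.trans (SimpleGraph.Reachable.symm hd1) hy
        have hwv : (off G (blk H y')).Adj w v := ⟨hvw.symm, hwB', hnB' v hd1⟩
        have : ∀ y, Relation.ReflTransGen (off G (blk H y0)).Adj v y →
            (off G (blk H y')).Reachable w y := by
          intro y hy
          induction hy with
          | refl => exact hwv.reachable
          | tail h3 hab ih =>
            rename_i a b
            have haK : a ∈ K := by
              have h5 : (off G (blk H y0)).Reachable v a := by
                rw [SimpleGraph.reachable_iff_reflTransGen]; exact h3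
              exact SimpleGraph.Reachable.trans hd1 h5
            have hbK : b ∈ K := SimpleGraph.Reachable.trans haK hab.reachable
            have hadj : (off G (blk H y')).Adj a b := ⟨hab.1, hnB' a haK, hnB' b hbK⟩
            exact SimpleGraph.Reachable.trans ih hadj.reachable
        rw [SimpleGraph.reachable_iff_reflTransGen] at hvy
        exact this y hvy
      have hxw : (off G (blk H y')).Reachable w x := hin x hxK
      have heq : C y' x = C y' w := by
        ext z
        exact ⟨fun h => SimpleGraph.Reachable.trans hxw h,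
          fun h => SimpleGraph.Reachable.trans (SimpleGraph.Reachable.symm hxw) h⟩
      have hy'x : y' ∉ blk H x := fun h => hnB' x hxK (mem_blk_symm h)
      have h3 := hmaxi y' hy'x (by rw [heq]; exact h1') (by rw [heq]; exact h2')
      rw [heq] at h3
      have h4 : K ⊂ C y' w := by
        refine ⟨fun y hy => hin y hy, ?_⟩
        intro h5
        exact hd2 (h5 (SimpleGraph.Reachable.refl w))
      have h5 := Set.ncard_lt_ncard h4 h1'
      omega
  refine ⟨K, v, w, hxK, hd1, hd2, hfin, hcard, hnl, hlive, hvw, ?_, ?_⟩
  · rw [hBeq]; exact hexit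
  · rw [hBeq]

theorem batt_exists (G H : SimpleGraph V) (hHG : H ≤ G) (k : ℕ) (x : V)
    (hx : {y | G.Reachable x y}.Infinite) :
    ∃ w, BAtt G H k x w ∧ ∃ P : G.Walk x w, P.length ≤ k := by
  classical
  by_cases hl : BLive G H k x
  · refine ⟨x, ⟨hl, SimpleGraph.Walk.nil, ?_⟩, SimpleGraph.Walk.nil, by simp⟩
    intro y hy hne
    simp only [SimpleGraph.Walk.support_nil, List.mem_singleton] at hy
    rw [hy] at hne
    exact absurd (SimpleGraph.Reachable.refl x) hne
  · obtain ⟨K, v, w, hxK, hvK, hwK, hfin, hcard, hnl, hlive, hvw, -, hKdef⟩ :=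
      bcore G H hHG k x hx hl
    have hv : (off G (blk H w)).Reachable x v := by
      rw [hKdef] at hvK; exact hvK
    obtain ⟨q, hq⟩ := hv.exists_isPath
    have hsupp : ∀ y ∈ q.support, y ∈ K := by
      intro y hy
      rw [hKdef]
      exact ⟨q.takeUntil y hy⟩
    have hle : off G (blk H w) ≤ G := fun a b h => h.1
    let q' : G.Walk x v := q.mapLe hle
    have hq's : q'.support = q.support := by
      simp [q']
    let P : G.Walk x w := q'.concat hvw
    have hPs : ∀ y ∈ P.support, y ∉ blk H w → ¬ BLive G H k y := by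
      intro y hy hne
      have h1 : y ∈ q'.support ∨ y = w := by
        simpa [P, SimpleGraph.Walk.support_concat] using hy
      rcases h1 with h1 | h1
      · rw [hq's] at h1
        exact hnl y (hsupp y h1)
      · rw [h1] at hne
        exact absurd (SimpleGraph.Reachable.refl w) hne
    refine ⟨w, ⟨hlive, P, hPs⟩, P, ?_⟩
    have hlen : P.length = q.length + 1 := by
      simp [P, q', SimpleGraph.Walk.length_concat]
    rw [hlen]
    have h2 : q.support.toFinset ⊆ hfin.toFinset := by
      intro y hy
      rw [List.mem_toFinset] at hy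
      rw [Set.Finite.mem_toFinset]
      exact hsupp y hy
    have h3 := Finset.card_le_card h2
    rw [List.toFinset_card_of_nodup hq.support_nodup, SimpleGraph.Walk.length_support,
      ← Set.ncard_eq_toFinset_card K hfin] at h3
    omega

theorem batt_trans (G H : SimpleGraph V) (hHG : H ≤ G) (k : ℕ) (x w w' : V)
    (h : BAtt G H k x w) (hw : w' ∈ blk H w) : BAtt G H k x w' := by
  classical
  obtain ⟨hl, P, hP⟩ := h
  have hw' : H.Reachable w w' := hw
  refine ⟨blive_congr G H hHG k w w' hw' hl, ?_⟩
  obtain ⟨q⟩ := hw'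
  refine ⟨P.append (q.mapLe hHG), ?_⟩
  intro z hz hne
  rw [SimpleGraph.Walk.mem_support_append_iff] at hz
  rcases hz with hz | hz
  · refine hP z hz ?_
    intro h1
    exact hne (mem_blk_trans (mem_blk_symm hw) h1)
  · exfalso
    apply hne
    have hz' : z ∈ q.support := by simpa using hz
    have h1 : z ∈ blk H w := ⟨q.takeUntil z hz'⟩
    exact mem_blk_trans (mem_blk_symm hw) h1

theorem batt_live (G H : SimpleGraph V) (hHG : H ≤ G) (k : ℕ) (x : V) (hl : BLive G H k x)
    (w : V) : BAtt G H k x w ↔ w ∈ blk H x := by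
  constructor
  · rintro ⟨hw, P, hP⟩
    by_contra hne
    refine hP x P.start_mem_support ?_ hl
    intro h1
    exact hne (mem_blk_symm h1)
  · intro hw
    refine batt_trans G H hHG k x x w ⟨hl, SimpleGraph.Walk.nil, ?_⟩ hw
    intro y hy hne
    simp only [SimpleGraph.Walk.support_nil, List.mem_singleton] at hy
    rw [hy] at hne
    exact absurd (SimpleGraph.Reachable.refl x) hne

theorem batt_iff (G H : SimpleGraph V) (hHG : H ≤ G) (k : ℕ) (x : V)
    (hx : {y | G.Reachable x y}.Infinite) (w w' : V) (h : BAtt G H k x w) :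
    BAtt G H k x w' ↔ w' ∈ blk H w := by
  constructor
  · intro h'
    by_cases hl : BLive G H k x
    · rw [batt_live G H hHG k x hl] at h h'
      exact mem_blk_trans (mem_blk_symm h) h'
    · obtain ⟨K, v, w0, hxK, hvK, hwK, hfin, hcard, hnl, hlive, hvw, hexit, -⟩ :=
        bcore G H hHG k x hx hl
      have key : ∀ w1, BAtt G H k x w1 → w1 ∈ blk H w0 := by
        rintro w1 ⟨hw, P, hP⟩
        have hwK' : w1 ∉ K := fun h1 => hnl w1 h1 hw
        obtain ⟨d, hd, hd1, hd2⟩ := P.exists_boundary_dart K hxK hwK'
        have h2 : d.snd ∈ blk H w0 := hexit d.fst hd1 d.snd hd2 d.adj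
        have h3 : d.snd ∈ P.support := P.dart_snd_mem_support_of_mem_darts hd
        have h4 : BLive G H k d.snd := blive_congr G H hHG k w0 d.snd h2 hlive
        have h5 : d.snd ∈ blk H w1 := by
          by_contra hne
          exact hP d.snd h3 hne h4
        exact mem_blk_trans h2 (mem_blk_symm h5)
      exact mem_blk_trans (mem_blk_symm (key w h)) (key w' h')
  · intro h'
    exact batt_trans G H hHG k x w w' h h'

theorem batt_adj (G H : SimpleGraph V) (hHG : H ≤ G) (k : ℕ) (x y : V)
    (hx : {y | G.Reachable x y}.Infinite) (hxy : G.Adj x y) (hl : ¬ BLive G H k x) (w : V) :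
    BAtt G H k x w → BAtt G H k y w := by
  intro h
  by_cases hy : BLive G H k y
  · have h1 : BAtt G H k x y := by
      refine ⟨hy, SimpleGraph.Walk.cons hxy SimpleGraph.Walk.nil, ?_⟩
      intro z hz hne
      simp only [SimpleGraph.Walk.support_cons, SimpleGraph.Walk.support_nil, List.mem_cons,
        List.not_mem_nil, or_false] at hz
      rcases hz with rfl | rfl
      · exact hl
      · exact absurd (SimpleGraph.Reachable.refl _) hne
    have h2 := (batt_iff G H hHG k x hx y w h1).mp h
    exact (batt_live G H hHG k y hy w).mpr h2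
  · obtain ⟨hw, P, hP⟩ := h
    refine ⟨hw, SimpleGraph.Walk.cons hxy.symm P, ?_⟩
    intro z hz hne
    rw [SimpleGraph.Walk.support_cons, List.mem_cons] at hz
    rcases hz with rfl | hz
    · exact hy
    · exact hP z hz hne

end H5DF
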