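import Pool.Agent.H5.DG.BMain
import Pool.Agent.H5.DG.Explore3

/-!
The sharp inequality for the diffusivity (MP_0d9ad5_pr): assembly.
-/

namespace H5DF

open MeasureTheory ENNReal

variable {d : ℕ}

lemma far_zero_le_mom (d : ℕ) (p : ℝ) : far d p 0 ≤ mom d p := by
  unfold far mom
  refine ENNReal.tsum_le_tsum fun x => ?_
  split_ifs
  · have : ENNReal.ofReal (‖x‖ ^ 2) ≤ ENNReal.ofReal (1 + ‖x‖ ^ 2) :=
      ENNReal.ofReal_le_ofReal (by linarith)
    gcongr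
  · exact bot_le

/-- The bound of the key estimate in real numbers. -/
lemma evF_le (i0 : Fin d) (p r : ℝ) (hp0 : 0 ≤ p) (hp1 : p ≤ 1) (hr0 : 0 ≤ r) (hr1 : r ≤ 1)
    (hpr : p * r < 1) (K M R k : ℕ) (hR : R + K + 1 ≤ M) (hk : (2 * M + 1) ^ d ≤ k) (m : ℝ)
    (hm : 0 ≤ m) (hmom : mom d (p * r) ≤ ENNReal.ofReal m) (x : V d) (σ : Dir d) :
    ∫⁻ q, evF i0 K k x σ q ∂((perc d p).prod (perc d r)) ≤
      ENNReal.ofReal ((p * (1 - r) / (1 - p * r)) * (2 * d) *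
        ((perc d p).real {ω | Arm R ω}) ^ 2 * m) := by
  have h1 := explore i0 p r hp0 hp1 hr0 hr1 K M R k hR hk x σ
  have h2 : (0 : ℝ) < 1 - p * r := by linarith
  have h4 : 0 ≤ p * (1 - r) := mul_nonneg hp0 (by linarith)
  have h3 : ENNReal.ofReal (1 - p * r) * ∫⁻ q, evF i0 K k x σ q ∂((perc d p).prod (perc d r)) ≤
      ENNReal.ofReal (p * (1 - r) * (2 * d) * ((perc d p).real {ω | Arm R ω}) ^ 2 * m) := by
    refine h1.trans ?_
    have h5 : ENNReal.ofReal (2 * (d : ℝ)) = 2 * d := by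
      rw [ENNReal.ofReal_mul (by norm_num)]
      simp
    have h7 : ENNReal.ofReal (p * (1 - r) * (2 * d) * ((perc d p).real {ω | Arm R ω}) ^ 2 * m) =
        ENNReal.ofReal (p * (1 - r)) * (2 * d) *
          ENNReal.ofReal (((perc d p).real {ω | Arm R ω}) ^ 2) * ENNReal.ofReal m := by
      rw [ENNReal.ofReal_mul' hm, ENNReal.ofReal_mul' (sq_nonneg _),
        ENNReal.ofReal_mul' (by positivity), h5]
    rw [h7]
    gcongr
  have h6 : (p * (1 - r) / (1 - p * r)) * (2 * d) *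
        ((perc d p).real {ω | Arm R ω}) ^ 2 * m =
      (p * (1 - r) * (2 * d) * ((perc d p).real {ω | Arm R ω}) ^ 2 * m) / (1 - p * r) := by
    field_simp
  rw [h6, ENNReal.ofReal_div_of_pos h2, ENNReal.le_div_iff_mul_le
    (Or.inl (ENNReal.ofReal_pos.2 h2).ne') (Or.inl ENNReal.ofReal_ne_top), mul_comm]
  exact h3

lemma dir_real' (i0 : Fin d) (K M R k : ℕ) (hK : 1 ≤ K) (hR : R + K + 1 ≤ M)
    (hk : (2 * M + 1) ^ d ≤ k) {p r : ℝ} (hp0 : 0 ≤ p)
    (hp1 : p ≤ 1) (h0 : 0 ≤ r) (h1 : r ≤ 1) (hpr : p * r < 1) (m : ℝ) (hm : 0 ≤ m)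
    (hmom : mom d (p * r) ≤ ENNReal.ofReal m) (s : Dir d) :
    ∫ ω in {ω | (cluster ω 0).Infinite ∧ ω (edge 0 s) = true},
        ((step s i0 : ℝ) + gA i0 K k r (shift (step s) ω) - gA i0 K k r ω) ^ 2 ∂(perc d p) ≤
      2 * (4 * m / (K : ℝ) ^ 2) + 6 * (1 - r) ^ 2 *
        (2 * ((p * (1 - r) / (1 - p * r)) * (2 * d) *
        ((perc d p).real {ω | Arm R ω}) ^ 2 * m) + 4 * m / (K : ℝ) ^ 2) := by
  haveI := isPP (d := d) h0 h1
  haveI := isPP (d := d) hp0 hp1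
  have hpr0 : 0 ≤ p * r := mul_nonneg hp0 h0
  have hE := energy_dir' i0 K k hp0 hp1 h0 h1 s
  have hB := bad_real (d := d) (p * r) hpr0 hpr.le K 0 (by omega) hK m hm
    ((far_zero_le_mom d _).trans hmom)
  set Y : ℝ := (p * (1 - r) / (1 - p * r)) * (2 * d) *
        ((perc d p).real {ω | Arm R ω}) ^ 2 * m with hY
  have hY0 : 0 ≤ Y := by
    have h2 : (0 : ℝ) < 1 - p * r := by linarith
    have h4 : 0 ≤ p * (1 - r) := mul_nonneg hp0 (by linarith)
    positivity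
  have hX1 := evF_le i0 p r hp0 hp1 h0 h1 hpr K M R k hR hk m hm hmom 0 s
  have hX2 := evF_le i0 p r hp0 hp1 h0 h1 hpr K M R k hR hk m hm hmom (step s) (opp s)
  rw [← hY] at hX1 hX2
  clear_value Y
  have hg := gA_meas (d := d) i0 K k h0 h1
  have hψ : Measurable fun ω : Cfg d =>
      ((step s i0 : ℝ) + gA i0 K k r (shift (step s) ω) - gA i0 K k r ω) ^ 2 :=
    ((measurable_const.add (hg.comp (measurable_shift (step s)))).sub hg).pow_const 2
  rw [← ENNReal.ofReal_le_ofReal_iff (by positivity)]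
  rw [ofReal_integral_eq_lintegral_ofReal ?_ (Filter.Eventually.of_forall fun ω => sq_nonneg _)]
  · refine hE.trans ?_
    calc 2 * perc d (p * r) {ω | ¬ Good K ω 0} +
          6 * ENNReal.ofReal ((1 - r) ^ 2) *
          ((∫⁻ q, evF i0 K k 0 s q ∂((perc d p).prod (perc d r))) +
           (∫⁻ q, evF i0 K k (step s) (opp s) q ∂((perc d p).prod (perc d r))) +
           perc d (p * r) {ω | ¬ Good K ω 0})
        ≤ 2 * ENNReal.ofReal (4 * m / (K : ℝ) ^ 2) +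
          6 * ENNReal.ofReal ((1 - r) ^ 2) * (ENNReal.ofReal Y + ENNReal.ofReal Y +
            ENNReal.ofReal (4 * m / (K : ℝ) ^ 2)) := by
          gcongr
      _ = _ := by
          have w1 : 0 ≤ 4 * m / (K : ℝ) ^ 2 := by positivity
          have w2 : 0 ≤ 2 * Y + 4 * m / (K : ℝ) ^ 2 := by linarith
          have w3 : 0 ≤ 2 * Y := by linarith
          have w4 : 0 ≤ 6 * (1 - r) ^ 2 := by positivity
          rw [ENNReal.ofReal_add (by positivity) (mul_nonneg w4 w2),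
            ENNReal.ofReal_mul (p := 2) (by norm_num), ENNReal.ofReal_mul w4,
            ENNReal.ofReal_mul (p := 6) (by norm_num), ENNReal.ofReal_add w3 w1,
            ENNReal.ofReal_mul (p := 2) (by norm_num)]
          simp [two_mul]
  · refine (integrable_of_bdd (perc d p) hψ ((1 + (k + K) + (k + K) : ℝ) ^ 2)
      fun ω => ?_).integrableOn
    have a1 := step_coord_le i0 s
    have a2 := gA_bound i0 K k h0 h1 ω
    have a3 := gA_bound i0 K k h0 h1 (shift (step s) ω)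
    rw [abs_of_nonneg (sq_nonneg _), ← sq_abs]
    have a4 : |(step s i0 : ℝ) + gA i0 K k r (shift (step s) ω) - gA i0 K k r ω| ≤
        1 + (k + K) + (k + K) := by
      rw [abs_le] at *
      constructor <;> linarith [a1.1, a1.2, a2.1, a2.2, a3.1, a3.2]
    gcongr

/-- The sharp inequality. -/
theorem sharp_ineq (d : ℕ) (hd : 1 ≤ d) (p' p m : ℝ) (D : NNReal)
    (hp'0 : 0 ≤ p') (hp' : p' ≤ p) (hp0 : 0 < p) (hp1 : p ≤ 1) (hp'1 : p' < 1) (hm : 0 ≤ m)
    (hmom : mom d p' ≤ ENNReal.ofReal m) (hD : HasDiffusivity d p D) :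
    (D : ℝ) * theta d p ≤ 96 * (d : ℝ) ^ 2 * ((p - p') / p) ^ 2 * ((p - p') / (1 - p')) *
      theta d p ^ 2 * m := by
  set r : ℝ := p' / p with hr
  have hr0 : 0 ≤ r := div_nonneg hp'0 hp0.le
  have hr1 : r ≤ 1 := (div_le_one hp0).2 hp'
  have hpr : p * r = p' := by rw [hr]; field_simp
  have h1r : 1 - r = (p - p') / p := by rw [hr]; field_simp
  have hprr : p * (1 - r) = p - p' := by rw [mul_sub, hpr, mul_one]
  have hmom' : mom d (p * r) ≤ ENNReal.ofReal m := by rw [hpr]; exact hmom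
  have hlt : p * r < 1 := by rw [hpr]; exact hp'1
  let i0 : Fin d := ⟨0, hd⟩
  set κ : ℝ := (p - p') / (1 - p') with hκ
  have hκ' : p * (1 - r) / (1 - p * r) = κ := by rw [hprr, hpr]
  have key : ∀ K R : ℕ, 1 ≤ K → (D : ℝ) * theta d p ≤ 4 * d *
      (2 * (4 * m / (K : ℝ) ^ 2) + 6 * (1 - r) ^ 2 *
        (2 * (κ * (2 * d) *
        ((perc d p).real {ω | Arm R ω}) ^ 2 * m) + 4 * m / (K : ℝ) ^ 2)) := by
    intro K R hK
    set M := R + K + 1 with hM
    set k := (2 * M + 1) ^ d with hk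
    have h2 := rw_bound d i0 p hp0.le hp1 D hD (gA i0 K k r) (gA_meas i0 K k hr0 hr1)
      ((k : ℝ) + K) (gA_bound i0 K k hr0 hr1)
    refine h2.trans ?_
    have h3 : ∑ s : Dir d, ∫ ω in {ω | (cluster ω 0).Infinite ∧ ω (edge 0 s) = true},
        ((step s i0 : ℝ) + gA i0 K k r (shift (step s) ω) - gA i0 K k r ω) ^ 2 ∂(perc d p) ≤
        ∑ _s : Dir d, (2 * (4 * m / (K : ℝ) ^ 2) + 6 * (1 - r) ^ 2 *
        (2 * (κ * (2 * d) *
        ((perc d p).real {ω | Arm R ω}) ^ 2 * m) + 4 * m / (K : ℝ) ^ 2)) := by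
      refine Finset.sum_le_sum fun s _ => ?_
      have := dir_real' i0 K M R k hK hM.ge le_rfl hp0.le hp1 hr0 hr1 hlt m hm hmom' s
      rw [hκ'] at this
      exact this
    rw [Finset.sum_const, Finset.card_univ, Fintype.card_prod, Fintype.card_fin,
      Fintype.card_bool, nsmul_eq_mul] at h3
    push_cast at h3
    linarith
  have key2 : ∀ K : ℕ, 1 ≤ K → (D : ℝ) * theta d p ≤ 4 * d *
      (2 * (4 * m / (K : ℝ) ^ 2) + 6 * (1 - r) ^ 2 *
        (2 * (κ * (2 * d) * (theta d p) ^ 2 * m) + 4 * m / (K : ℝ) ^ 2)) := by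
    intro K hK
    have hlim : Filter.Tendsto (fun R : ℕ => 4 * (d : ℝ) *
      (2 * (4 * m / (K : ℝ) ^ 2) + 6 * (1 - r) ^ 2 *
        (2 * (κ * (2 * d) *
        ((perc d p).real {ω | Arm R ω}) ^ 2 * m) + 4 * m / (K : ℝ) ^ 2))) Filter.atTop
        (nhds (4 * (d : ℝ) *
      (2 * (4 * m / (K : ℝ) ^ 2) + 6 * (1 - r) ^ 2 *
        (2 * (κ * (2 * d) * (theta d p) ^ 2 * m) + 4 * m / (K : ℝ) ^ 2)))) :=
      ((((((((arm_tendsto (d := d) p hp0.le hp1).pow 2).const_mul _).mul_const _).const_mul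
        _).add_const _).const_mul _).const_add _).const_mul _
    exact ge_of_tendsto' hlim fun R => key K R hK
  have hlimK : Filter.Tendsto (fun K : ℕ => 4 * m / (K : ℝ) ^ 2) Filter.atTop (nhds 0) := by
    refine Filter.Tendsto.div_atTop tendsto_const_nhds ?_
    exact (Filter.tendsto_pow_atTop (by norm_num)).comp tendsto_natCast_atTop_atTop
  have key3 : (D : ℝ) * theta d p ≤ 4 * d *
      (2 * 0 + 6 * (1 - r) ^ 2 *
        (2 * (κ * (2 * d) * (theta d p) ^ 2 * m) + 0)) := by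
    have hlim : Filter.Tendsto (fun K : ℕ => 4 * (d : ℝ) *
      (2 * (4 * m / (K : ℝ) ^ 2) + 6 * (1 - r) ^ 2 *
        (2 * (κ * (2 * d) * (theta d p) ^ 2 * m) + 4 * m / (K : ℝ) ^ 2))) Filter.atTop
        (nhds (4 * (d : ℝ) * (2 * 0 + 6 * (1 - r) ^ 2 *
        (2 * (κ * (2 * d) * (theta d p) ^ 2 * m) + 0)))) :=
      ((hlimK.const_mul 2).add ((hlimK.const_add _).const_mul _)).const_mul _
    refine ge_of_tendsto hlim ?_
    filter_upwards [Filter.eventually_ge_atTop 1] with K hK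
    exact key2 K hK
  rw [← h1r]
  refine key3.trans (le_of_eq ?_)
  ring

/-- The mean-field corollary: `D(p) = O((p - p_c)^2)`. -/
theorem sharp_mean_field (d : ℕ) (hd : 1 ≤ d) (pc A δ₀ : ℝ) (hpc0 : 0 < pc) (hpc1 : pc < 1)
    (hA : 0 < A) (hδ₀ : 0 < δ₀)
    (hθ : ∀ ε, 0 < ε → ε < δ₀ → 0 < theta d (pc + ε) ∧ theta d (pc + ε) ≤ A * ε)
    (hM : ∀ ε, 0 < ε → ε < δ₀ → mom d (pc - ε) ≤ ENNReal.ofReal (A / ε ^ 2)) :
    ∃ C δ : ℝ, 0 < C ∧ 0 < δ ∧ ∀ ε, 0 < ε → ε < δ → ∀ D : NNReal,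
      HasDiffusivity d (pc + ε) D → (D : ℝ) ≤ C * ε ^ 2 := by
  refine ⟨768 * (d : ℝ) ^ 2 * A ^ 2 / (pc ^ 2 * (1 - pc)), min (min δ₀ pc) (1 - pc), ?_, ?_, ?_⟩
  · have : (0 : ℝ) < d := by exact_mod_cast hd
    have h2 : 0 < 1 - pc := by linarith
    positivity
  · have h2 : 0 < 1 - pc := by linarith
    positivity
  intro ε hε hεδ D hD
  have e1 : ε < δ₀ := lt_of_lt_of_le hεδ ((min_le_left _ _).trans (min_le_left _ _))
  have e2 : ε < pc := lt_of_lt_of_le hεδ ((min_le_left _ _).trans (min_le_right _ _))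
  have e3 : ε < 1 - pc := lt_of_lt_of_le hεδ (min_le_right _ _)
  have h1pc : 0 < 1 - pc := by linarith
  have hmain := sharp_ineq d hd (pc - ε) (pc + ε) (A / ε ^ 2) D (by linarith) (by linarith)
    (by linarith) (by linarith) (by linarith) (by positivity) (hM ε hε e1) hD
  obtain ⟨t1, t2⟩ := hθ ε hε e1
  set θ : ℝ := theta d (pc + ε) with hθd
  have hsub : pc + ε - (pc - ε) = 2 * ε := by ring
  rw [hsub] at hmain
  have hD1 : (D : ℝ) ≤ 96 * (d : ℝ) ^ 2 * (2 * ε / (pc + ε)) ^ 2 * (2 * ε / (1 - (pc - ε))) *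
      θ * (A / ε ^ 2) := by
    have h1 : (D : ℝ) = (D * θ) / θ := by field_simp
    rw [h1]
    calc (D * θ) / θ ≤ (96 * (d : ℝ) ^ 2 * (2 * ε / (pc + ε)) ^ 2 * (2 * ε / (1 - (pc - ε))) *
          θ ^ 2 * (A / ε ^ 2)) / θ := by gcongr
      _ = _ := by field_simp
  refine hD1.trans ?_
  have hε2 : 0 < 1 - (pc - ε) := by linarith
  calc 96 * (d : ℝ) ^ 2 * (2 * ε / (pc + ε)) ^ 2 * (2 * ε / (1 - (pc - ε))) * θ * (A / ε ^ 2)
      ≤ 96 * (d : ℝ) ^ 2 * (2 * ε / pc) ^ 2 * (2 * ε / (1 - pc)) * (A * ε) * (A / ε ^ 2) := by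
        gcongr
        · linarith
        · linarith
    _ = _ := by
        field_simp
        ring

end H5DF
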