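import Pool.Agent.H5.DG.BPot
import Pool.Agent.H5.DF.Energy2

/-!
The gradient of the averaged potential (MP_0d9ad5_pr).
-/

namespace H5DF

open MeasureTheory ENNReal

variable {d : ℕ}

open Classical in
/-- The bound for the gradient over a closed (in the thinning) edge with live ends. -/
noncomputable def Ph (i0 : Fin d) (K k : ℕ) (s : Dir d) (q : Cfg d × Cfg d) : ℝ :=
  if BLive (G q.1) (Hb K (zt (edge 0 s) q)) k 0 ∧
    BLive (G q.1) (Hb K (zt (edge 0 s) q)) k (step s) ∧
    step s ∉ blk (Hb K (zt (edge 0 s) q)) 0 then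
    1 + |dvs i0 (blk (Hb K (zt (edge 0 s) q)) 0) 0| +
      |dvs i0 (blk (Hb K (zt (edge 0 s) q)) (step s)) (step s)| else 0

lemma dvs_le (i0 : Fin d) (K : ℕ) (ζ : Cfg d) (x : V d) :
    |dvs i0 (blk (Hb K ζ) x) x| ≤ K := by
  have hfin := blk_finite K ζ x
  have hne : (blk (Hb K ζ) x).Nonempty := ⟨x, SimpleGraph.Reachable.refl x⟩
  have hc : (0 : ℝ) < (blk (Hb K ζ) x).ncard := by
    exact_mod_cast (Set.ncard_pos hfin).2 hne
  unfold dvs
  rw [abs_div, abs_of_pos hc, div_le_iff₀ hc, finsum_mem_eq_finite_toFinset_sum _ hfin,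
    Set.ncard_eq_toFinset_card _ hfin]
  refine (Finset.abs_sum_le_sum_abs _ _).trans ?_
  calc ∑ z ∈ hfin.toFinset, |(z i0 : ℝ) - x i0| ≤ ∑ _z ∈ hfin.toFinset, (K : ℝ) := by
        refine Finset.sum_le_sum fun z hz => ?_
        have h1 : z ∈ blk (Hb K ζ) x := by simpa using hz
        have h2 := blk_norm h1
        have h3 := abs_coord_le i0 (z - x)
        simp only [Pi.sub_apply, Int.cast_sub] at h3
        exact h3.trans h2
    _ = _ := by rw [Finset.sum_const, nsmul_eq_mul]; ring

lemma meas_dvs (i0 : Fin d) (K : ℕ) (x : V d) :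
    Measurable fun ζ : Cfg d => dvs i0 (blk (Hb K ζ) x) x := by
  classical
  have h : (fun ζ : Cfg d => dvs i0 (blk (Hb K ζ) x) x) = fun ζ =>
      (∑ z ∈ ballF K, if x + z ∈ blk (Hb K ζ) x then ((z i0 : ℝ)) else 0) /
      (∑ z ∈ ballF (d := d) K, if x + z ∈ blk (Hb K ζ) x then (1 : ℝ) else 0) := by
    funext ζ
    have hfin := blk_finite K ζ x
    have hset : ((ballF K).filter fun z => x + z ∈ blk (Hb K ζ) x).image (fun z => x + z) =
        hfin.toFinset := by
      ext w
      rw [Finset.mem_image, Set.Finite.mem_toFinset]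
      constructor
      · rintro ⟨z, hz, rfl⟩
        exact (Finset.mem_filter.1 hz).2
      · intro hw
        refine ⟨w - x, ?_, by abel⟩
        rw [Finset.mem_filter]
        refine ⟨mem_ballF.2 (blk_norm hw), ?_⟩
        have : x + (w - x) = w := by abel
        rw [this]; exact hw
    have hinj : Function.Injective fun z : V d => x + z := add_right_injective x
    unfold dvs
    rw [← Finset.sum_filter, ← Finset.sum_filter, finsum_mem_eq_finite_toFinset_sum _ hfin,
      Set.ncard_eq_toFinset_card _ hfin, ← hset, Finset.sum_image hinj.injOn,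
      Finset.card_image_of_injective _ hinj]
    simp
  rw [h]
  refine Measurable.div ?_ ?_
  · exact Finset.measurable_fun_sum _ fun z _ =>
      Measurable.ite (meas_blk K x (x + z)) measurable_const measurable_const
  · exact Finset.measurable_fun_sum _ fun z _ =>
      Measurable.ite (meas_blk K x (x + z)) measurable_const measurable_const

lemma Ph_nonneg (i0 : Fin d) (K k : ℕ) (s : Dir d) (q : Cfg d × Cfg d) :
    0 ≤ Ph i0 K k s q := by
  classical
  unfold Ph
  split_ifs
  · positivity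
  · exact le_refl _

lemma Ph_le (i0 : Fin d) (K k : ℕ) (s : Dir d) (q : Cfg d × Cfg d) :
    Ph i0 K k s q ≤ 1 + K + K := by
  classical
  unfold Ph
  split_ifs
  · have h1 := dvs_le i0 K (zt (edge 0 s) q) 0
    have h2 := dvs_le i0 K (zt (edge 0 s) q) (step s)
    linarith
  · positivity

lemma Ph_meas (i0 : Fin d) (K k : ℕ) (s : Dir d) : Measurable (Ph (d := d) i0 K k s) := by
  classical
  have hz : Measurable fun q : Cfg d × Cfg d => zt (edge 0 s) q := measurable_zt _
  have h2 : Measurable fun q : Cfg d × Cfg d => (q.1, zt (edge 0 s) q) :=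
    measurable_fst.prodMk hz
  unfold Ph
  refine Measurable.ite ?_ ?_ measurable_const
  · exact (h2 (meas_blive K k 0)).inter ((h2 (meas_blive K k (step s))).inter
      (hz (meas_blk K 0 (step s))).compl)
  · exact (measurable_const.add (continuous_abs.measurable.comp ((meas_dvs i0 K 0).comp hz))).add
      (continuous_abs.measurable.comp ((meas_dvs i0 K (step s)).comp hz))

lemma zt_upd (e : Ed d) (ω η : Cfg d) (b : Bool) :
    zt e (ω, Function.update η e b) = zt e (ω, η) := by
  unfold zt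
  simp only [Function.update_idem]

lemma Ph_upd (i0 : Fin d) (K k : ℕ) (s : Dir d) (ω η : Cfg d) (b : Bool) :
    Ph i0 K k s (ω, Function.update η (edge 0 s) b) = Ph i0 K k s (ω, η) := by
  classical
  have h := zt_upd (edge 0 s) ω η b
  have key : ∀ ζ ζ' : Cfg d, ζ = ζ' → (if BLive (G ω) (Hb K ζ) k 0 ∧
      BLive (G ω) (Hb K ζ) k (step s) ∧ step s ∉ blk (Hb K ζ) 0 then
      1 + |dvs i0 (blk (Hb K ζ) 0) 0| + |dvs i0 (blk (Hb K ζ) (step s)) (step s)| else (0 : ℝ)) =
      (if BLive (G ω) (Hb K ζ') k 0 ∧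
      BLive (G ω) (Hb K ζ') k (step s) ∧ step s ∉ blk (Hb K ζ') 0 then
      1 + |dvs i0 (blk (Hb K ζ') 0) 0| + |dvs i0 (blk (Hb K ζ') (step s)) (step s)| else 0) := by
    intro ζ ζ' hz
    rw [hz]
  exact key _ _ h

/-- The pair gradient is bounded. -/
lemma gr_le (i0 : Fin d) (K k : ℕ) (s : Dir d) (q : Cfg d × Cfg d)
    (hinf : (cluster q.1 0).Infinite) (hs : q.1 (edge 0 s) = true) :
    |gr i0 K k s q| ≤ ({q : Cfg d × Cfg d | ¬ Good K (inter q.1 q.2) 0}).indicator
      (fun _ => (1 : ℝ)) q + if q.2 (edge 0 s) = false then Ph i0 K k s q else 0 := by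
  classical
  have hA0 : 0 ≤ ({q : Cfg d × Cfg d | ¬ Good K (inter q.1 q.2) 0}).indicator
      (fun _ => (1 : ℝ)) q := Set.indicator_nonneg (fun _ _ => zero_le_one) q
  have hB0 : 0 ≤ if q.2 (edge 0 s) = false then Ph i0 K k s q else 0 := by
    split_ifs
    · exact Ph_nonneg i0 K k s q
    · exact le_refl _
  rcases gr_cases i0 K k s hinf hs with h | ⟨h0, h1, hb, hle⟩
  · rw [h, abs_zero]; positivity
  by_cases hη : q.2 (edge 0 s) = false
  · rw [if_pos hη]
    have hz : zt (edge 0 s) q = inter q.1 q.2 := by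
      unfold zt
      congr 1
      rw [← hη]
      exact Function.update_eq_self _ _
    have hP : Ph i0 K k s q = 1 + |dvs i0 (blk (Hb K (inter q.1 q.2)) 0) 0| +
        |dvs i0 (blk (Hb K (inter q.1 q.2)) (step s)) (step s)| := by
      unfold Ph
      rw [hz, if_pos ⟨h0, h1, hb⟩]
    rw [hP]
    linarith
  · rw [if_neg hη, add_zero]
    have hop : inter q.1 q.2 (edge 0 s) = true := by
      show (q.1 (edge 0 s) && q.2 (edge 0 s)) = true
      rw [hs]
      cases h5 : q.2 (edge 0 s)
      · exact absurd h5 hη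
      · rfl
    have hy : step s ∈ cluster (inter q.1 q.2) 0 := by
      have := (adj_of_open hop).reachable
      rwa [zero_add] at this
    by_cases hg : Good K (inter q.1 q.2) 0
    · rw [blk_good hg] at hb
      exact absurd hy hb
    · have hg' : ¬ Good K (inter q.1 q.2) (step s) := fun h => hg ((good_iff hy).1 h)
      rw [blk_bad hg, blk_bad hg', dvs_singleton, dvs_singleton] at hle
      rw [Set.indicator_of_mem (show q ∈ {q : Cfg d × Cfg d | ¬ Good K (inter q.1 q.2) 0} from hg)]
      simpa using hle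

/-- The averaged potential. -/
noncomputable def gA (i0 : Fin d) (K k : ℕ) (r : ℝ) (ω : Cfg d) : ℝ :=
  ∫ η, u0 i0 K k (ω, η) ∂(perc d r)

lemma gA_meas (i0 : Fin d) (K k : ℕ) {r : ℝ} (h0 : 0 ≤ r) (h1 : r ≤ 1) :
    Measurable (gA (d := d) i0 K k r) := by
  haveI := isPP (d := d) h0 h1
  exact ((u0_meas i0 K k).stronglyMeasurable.integral_prod_right' (ν := perc d r)).measurable

lemma u0_int (i0 : Fin d) (K k : ℕ) {r : ℝ} (h0 : 0 ≤ r) (h1 : r ≤ 1) (ω : Cfg d) :
    Integrable (fun η => u0 i0 K k (ω, η)) (perc d r) := by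
  haveI := isPP (d := d) h0 h1
  exact integrable_of_bdd _ ((u0_meas i0 K k).comp (measurable_prodMk_left (x := ω)))
    ((k : ℝ) + K) fun η => u0_bound i0 K k (ω, η)

lemma gA_bound (i0 : Fin d) (K k : ℕ) {r : ℝ} (h0 : 0 ≤ r) (h1 : r ≤ 1) (ω : Cfg d) :
    |gA i0 K k r ω| ≤ (k : ℝ) + K := by
  haveI := isPP (d := d) h0 h1
  unfold gA
  refine (abs_integral_le_integral_abs).trans ?_
  have : ∫ η, |u0 i0 K k (ω, η)| ∂(perc d r) ≤ ∫ _η, ((k : ℝ) + K) ∂(perc d r) :=
    integral_mono (u0_int i0 K k h0 h1 ω).abs (integrable_const _) fun η => u0_bound i0 K k (ω, η)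
  simpa using this

/-- The gradient of the averaged potential is the average of the pair gradient. -/
lemma gA_grad (i0 : Fin d) (K k : ℕ) {r : ℝ} (h0 : 0 ≤ r) (h1 : r ≤ 1) (s : Dir d)
    (ω : Cfg d) : (step s i0 : ℝ) + gA i0 K k r (shift (step s) ω) - gA i0 K k r ω =
      ∫ η, gr i0 K k s (ω, η) ∂(perc d r) := by
  haveI := isPP (d := d) h0 h1
  have hm : Measurable fun η : Cfg d => u0 i0 K k (shift (step s) ω, η) :=
    (u0_meas i0 K k).comp (measurable_prodMk_left (x := shift (step s) ω))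
  have h2 : gA i0 K k r (shift (step s) ω) =
      ∫ η, u0 i0 K k (shift (step s) ω, shift (step s) η) ∂(perc d r) := by
    unfold gA
    conv_lhs => rw [← perc_shift (d := d) r h0 h1 (step s)]
    rw [integral_map (measurable_shift (step s)).aemeasurable hm.aestronglyMeasurable]
  have hi2 : Integrable (fun η => u0 i0 K k (shift (step s) ω, shift (step s) η))
      (perc d r) :=
    integrable_of_bdd _ (hm.comp (measurable_shift (step s))) ((k : ℝ) + K) fun η =>
      u0_bound i0 K k _
  rw [h2]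
  unfold gA gr
  have e1 := integral_sub (μ := perc d r)
    (f := fun η => (step s i0 : ℝ) + u0 i0 K k (shift (step s) ω, shift (step s) η))
    (g := fun η => u0 i0 K k (ω, η)) ((integrable_const _).add hi2) (u0_int i0 K k h0 h1 ω)
  have e2 := integral_add (μ := perc d r) (f := fun _ => (step s i0 : ℝ))
    (g := fun η => u0 i0 K k (shift (step s) ω, shift (step s) η)) (integrable_const _) hi2
  rw [e1, e2]
  simp

/-- Square of the gradient of the averaged potential. -/
lemma gA_sq (i0 : Fin d) (K k : ℕ) {r : ℝ} (h0 : 0 ≤ r) (h1 : r ≤ 1) (s : Dir d)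
    {ω : Cfg d} (hinf : (cluster ω 0).Infinite) (hs : ω (edge 0 s) = true) :
    ((step s i0 : ℝ) + gA i0 K k r (shift (step s) ω) - gA i0 K k r ω) ^ 2 ≤
      2 * (perc d r).real {η | ¬ Good K (inter ω η) 0} +
      2 * ((1 - r) ^ 2 * ∫ η, Ph i0 K k s (ω, η) ^ 2 ∂(perc d r)) := by
  classical
  haveI := isPP (d := d) h0 h1
  rw [gA_grad i0 K k h0 h1]
  set e : Ed d := edge 0 s with he
  set F : Cfg d → ℝ := fun η => Ph i0 K k s (ω, η) with hF
  have hFm : Measurable F := (Ph_meas i0 K k s).comp (measurable_prodMk_left (x := ω))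
  have hF0 : ∀ η, 0 ≤ F η := fun η => Ph_nonneg i0 K k s (ω, η)
  have hFC : ∀ η, F η ≤ 1 + K + K := fun η => Ph_le i0 K k s (ω, η)
  have hSm : MeasurableSet {η : Cfg d | ¬ Good K (inter ω η) 0} := by
    have h3 : Measurable fun η : Cfg d => inter ω η :=
      measurable_inter.comp (measurable_prodMk_left (x := ω))
    exact (h3 (meas_good K 0)).compl
  set A : Cfg d → ℝ := ({η : Cfg d | ¬ Good K (inter ω η) 0}).indicator (fun _ => (1 : ℝ)) with hA
  set B : Cfg d → ℝ := fun η => if η e = false then F η else 0 with hB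
  have hAm : Measurable A := measurable_const.indicator hSm
  have hBm : Measurable B := by
    refine Measurable.ite ?_ hFm measurable_const
    have h3 : Measurable fun η : Cfg d => η e := measurable_pi_apply e
    exact h3 (measurableSet_singleton false)
  have hA0 : ∀ η, 0 ≤ A η := fun η => Set.indicator_nonneg (fun _ _ => zero_le_one) η
  have hA1 : ∀ η, A η ≤ 1 := fun η => Set.indicator_le_self' (fun _ _ => zero_le_one) η
  have hB0 : ∀ η, 0 ≤ B η := fun η => by
    simp only [hB]; split_ifs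
    · exact hF0 η
    · exact le_refl _
  have hB1 : ∀ η, B η ≤ 1 + K + K := fun η => by
    simp only [hB]; split_ifs
    · exact hFC η
    · positivity
  have hAi : Integrable A (perc d r) := integrable_of_bdd _ hAm 1 fun η => by
    rw [abs_of_nonneg (hA0 η)]; exact hA1 η
  have hBi : Integrable B (perc d r) := integrable_of_bdd _ hBm (1 + K + K) fun η => by
    rw [abs_of_nonneg (hB0 η)]; exact hB1 η
  have hAint : ∫ η, A η ∂(perc d r) = (perc d r).real {η | ¬ Good K (inter ω η) 0} := by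
    simp only [hA]
    rw [integral_indicator hSm]
    simp
  have hBint : ∫ η, B η ∂(perc d r) = (1 - r) * ∫ η, F η ∂(perc d r) := by
    have := closed_coord_real r h0 h1 e F hFm hF0 _ hFC
    simp only [hB]
    rw [this]
    congr 1
    refine integral_congr_ae (Filter.Eventually.of_forall fun η => ?_)
    exact Ph_upd i0 K k s ω η false
  have hgrad : |∫ η, gr i0 K k s (ω, η) ∂(perc d r)| ≤
      (∫ η, A η ∂(perc d r)) + ∫ η, B η ∂(perc d r) := by
    rw [← integral_add hAi hBi]
    refine (abs_integral_le_integral_abs).trans (integral_mono_of_nonneg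
      (Filter.Eventually.of_forall fun η => abs_nonneg _) (hAi.add hBi)
      (Filter.Eventually.of_forall fun η => ?_))
    exact gr_le i0 K k s (ω, η) hinf hs
  have ha0 : 0 ≤ ∫ η, A η ∂(perc d r) := integral_nonneg hA0
  have ha1 : ∫ η, A η ∂(perc d r) ≤ 1 := by
    rw [hAint]; exact measureReal_le_one
  have hb0 : 0 ≤ ∫ η, B η ∂(perc d r) := integral_nonneg hB0
  have hJ : (∫ η, F η ∂(perc d r)) ^ 2 ≤ ∫ η, (F η) ^ 2 ∂(perc d r) :=
    sq_integral_le _ hFm (1 + K + K) fun η => by
      rw [abs_of_nonneg (hF0 _)]; exact hFC _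
  have hsq : (∫ η, gr i0 K k s (ω, η) ∂(perc d r)) ^ 2 ≤
      ((∫ η, A η ∂(perc d r)) + ∫ η, B η ∂(perc d r)) ^ 2 := by
    rw [← sq_abs]
    gcongr
  have hfin : ((∫ η, A η ∂(perc d r)) + ∫ η, B η ∂(perc d r)) ^ 2 ≤
      2 * (∫ η, A η ∂(perc d r)) + 2 * (∫ η, B η ∂(perc d r)) ^ 2 := by
    nlinarith [sq_nonneg ((∫ η, A η ∂(perc d r)) - ∫ η, B η ∂(perc d r))]
  refine hsq.trans (hfin.trans ?_)
  rw [hAint, hBint, mul_pow]
  have h2 : 0 ≤ (1 - r) ^ 2 := sq_nonneg _
  have h3 : (1 - r) ^ 2 * (∫ η, F η ∂(perc d r)) ^ 2 ≤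
      (1 - r) ^ 2 * ∫ η, (F η) ^ 2 ∂(perc d r) := by
    gcongr
  linarith

end H5DF
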