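import Pool.Agent.H5.DG.BGrad
import Pool.Agent.H5.DF.Main

/-!
The sharp inequality for the diffusivity (MP_0d9ad5_pr).
-/

namespace H5DF

open MeasureTheory ENNReal

variable {d : ℕ}

/-- The integrand of the key estimate. -/
noncomputable def evF (i0 : Fin d) (K k : ℕ) (x : V d) (σ : Dir d) (q : Cfg d × Cfg d) : ENNReal :=
  (Ev K k x σ).indicator (fun q =>
        ENNReal.ofReal (1 + dvs i0 (cluster (zt (edge x σ) q) x) x ^ 2)) q

lemma meas_dvs_cluster (i0 : Fin d) (K : ℕ) (x : V d) :
    Measurable fun ζ : Cfg d => ({ζ : Cfg d | Good K ζ x}).indicator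
      (fun ζ => dvs i0 (cluster ζ x) x) ζ := by
  have h : (fun ζ : Cfg d => ({ζ : Cfg d | Good K ζ x}).indicator
      (fun ζ => dvs i0 (cluster ζ x) x) ζ) = ({ζ : Cfg d | Good K ζ x}).indicator
      (fun ζ => dvs i0 (blk (Hb K ζ) x) x) := by
    funext ζ
    by_cases hg : ζ ∈ {ζ : Cfg d | Good K ζ x}
    · rw [Set.indicator_of_mem hg, Set.indicator_of_mem hg, blk_good hg]
    · rw [Set.indicator_of_notMem hg, Set.indicator_of_notMem hg]
  rw [h]
  exact (meas_dvs i0 K x).indicator (meas_good K x)

lemma meas_Ev (K k : ℕ) (x : V d) (σ : Dir d) : MeasurableSet (Ev K k x σ) := by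
  have hz : Measurable fun q : Cfg d × Cfg d => zt (edge x σ) q := measurable_zt _
  have h2 : Measurable fun q : Cfg d × Cfg d => (q.1, zt (edge x σ) q) :=
    measurable_fst.prodMk hz
  have h6 : MeasurableSet {ζ : Cfg d | x + step σ ∈ cluster ζ x} := meas_reach x (x + step σ)
  exact (measurable_fst (meas_open (edge x σ))).inter ((measurable_fst (meas_inf x)).inter
    ((h2 (meas_blive K k x)).inter ((h2 (meas_blive K k (x + step σ))).inter
      ((hz (meas_good K x)).inter (hz h6).compl))))

lemma meas_evF (i0 : Fin d) (K k : ℕ) (x : V d) (σ : Dir d) :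
    Measurable (evF (d := d) i0 K k x σ) := by
  have hz : Measurable fun q : Cfg d × Cfg d => zt (edge x σ) q := measurable_zt _
  have h : evF (d := d) i0 K k x σ = (Ev K k x σ).indicator (fun q =>
      ENNReal.ofReal (1 + (({ζ : Cfg d | Good K ζ x}).indicator
      (fun ζ => dvs i0 (cluster ζ x) x) (zt (edge x σ) q)) ^ 2)) := by
    funext q
    unfold evF
    by_cases hq : q ∈ Ev K k x σ
    · rw [Set.indicator_of_mem hq, Set.indicator_of_mem hq]
      have hg : zt (edge x σ) q ∈ {ζ : Cfg d | Good K ζ x} := hq.2.2.2.2.1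
      rw [Set.indicator_of_mem hg]
    · rw [Set.indicator_of_notMem hq, Set.indicator_of_notMem hq]
  rw [h]
  refine Measurable.indicator ?_ (meas_Ev K k x σ)
  exact ((((meas_dvs_cluster i0 K x).comp hz).pow_const 2).const_add 1).ennreal_ofReal

/-- Pointwise bound of the square of `Ph`. -/
lemma Ph_sq_le (i0 : Fin d) (K k : ℕ) (s : Dir d) (q : Cfg d × Cfg d)
    (hinf : (cluster q.1 0).Infinite) (hs : q.1 (edge 0 s) = true) :
    ENNReal.ofReal (Ph i0 K k s q ^ 2) ≤ 3 * (evF i0 K k 0 s q + evF i0 K k (step s) (opp s) q +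
      ({q : Cfg d × Cfg d | ¬ Good K (zt (edge 0 s) q) 0}).indicator (fun _ => (1 : ENNReal)) q) := by
  classical
  set ζ := zt (edge 0 s) q with hζ
  by_cases hc : BLive (G q.1) (Hb K ζ) k 0 ∧ BLive (G q.1) (Hb K ζ) k (step s) ∧
      step s ∉ blk (Hb K ζ) 0
  · obtain ⟨h0, h1, hb⟩ := hc
    have hP : Ph i0 K k s q = 1 + |dvs i0 (blk (Hb K ζ) 0) 0| +
        |dvs i0 (blk (Hb K ζ) (step s)) (step s)| := by
      unfold Ph
      rw [if_pos ⟨h0, h1, hb⟩]
    have hedge : edge (step s) (opp s) = edge (0 : V d) s := by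
      have := edge_opp (0 : V d) s
      rwa [zero_add] at this
    have hback : (step s : V d) + step (opp s) = 0 := by rw [step_opp]; abel
    have hinf' : (cluster q.1 (step s)).Infinite := by
      have := (inf_adj hs).2 hinf
      rwa [zero_add] at this
    set a := dvs i0 (blk (Hb K ζ) 0) 0 with ha
    set b := dvs i0 (blk (Hb K ζ) (step s)) (step s) with hbb
    have t1 : ENNReal.ofReal (1 + a ^ 2) ≤ evF i0 K k 0 s q +
        ({q : Cfg d × Cfg d | ¬ Good K (zt (edge 0 s) q) 0}).indicator
          (fun _ => (1 : ENNReal)) q := by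
      by_cases hg : Good K ζ 0
      · refine le_add_right ?_
        have hq : q ∈ Ev K k 0 s := by
          refine ⟨hs, hinf, h0, by rw [zero_add]; exact h1, hg, ?_⟩
          rw [zero_add, ← blk_good hg]
          exact hb
        unfold evF
        rw [Set.indicator_of_mem hq, ha, blk_good hg]
      · refine le_add_left ?_
        rw [Set.indicator_of_mem (show q ∈ {q : Cfg d × Cfg d | ¬ Good K (zt (edge 0 s) q) 0}
          from hg), ha, blk_bad hg, dvs_singleton]
        simp
    have t2 : ENNReal.ofReal (b ^ 2) ≤ evF i0 K k (step s) (opp s) q := by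
      by_cases hg : Good K ζ (step s)
      · have hb' : (0 : V d) ∉ cluster ζ (step s) := by
          intro h
          apply hb
          have hg0 : Good K ζ 0 := (good_iff h).2 hg
          rw [blk_good hg0]
          exact SimpleGraph.Reachable.symm h
        have hq : q ∈ Ev K k (step s) (opp s) := by
          unfold Ev
          simp only [Set.mem_setOf_eq, hedge, hback]
          exact ⟨hs, hinf', h1, h0, hg, hb'⟩
        unfold evF
        rw [Set.indicator_of_mem hq, hedge, hbb, blk_good hg]
        refine ENNReal.ofReal_le_ofReal ?_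
        linarith
      · rw [hbb, blk_bad hg, dvs_singleton]
        simp
    rw [hP]
    have h3 : (1 + |a| + |b|) ^ 2 ≤ 3 * ((1 + a ^ 2) + b ^ 2) := by
      nlinarith [sq_nonneg (1 - |a|), sq_nonneg (1 - |b|), sq_nonneg (|a| - |b|), sq_abs a,
        sq_abs b]
    calc ENNReal.ofReal ((1 + |a| + |b|) ^ 2) ≤ ENNReal.ofReal (3 * ((1 + a ^ 2) + b ^ 2)) :=
          ENNReal.ofReal_le_ofReal h3
      _ = 3 * (ENNReal.ofReal (1 + a ^ 2) + ENNReal.ofReal (b ^ 2)) := by
          rw [ENNReal.ofReal_mul (by norm_num), ENNReal.ofReal_add (by positivity) (by positivity)]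
          simp
      _ ≤ 3 * ((evF i0 K k 0 s q +
        ({q : Cfg d × Cfg d | ¬ Good K (zt (edge 0 s) q) 0}).indicator
          (fun _ => (1 : ENNReal)) q) + evF i0 K k (step s) (opp s) q) := by gcongr
      _ = _ := by ring
  · have hP : Ph i0 K k s q = 0 := by
      unfold Ph
      rw [if_neg hc]
    rw [hP]
    simp

lemma prob_bad_zt (K : ℕ) (p r : ℝ) (hp0 : 0 ≤ p) (hp1 : p ≤ 1) (hr0 : 0 ≤ r) (hr1 : r ≤ 1)
    (e : Ed d) : ((perc d p).prod (perc d r)) {q | ¬ Good K (zt e q) 0} ≤
      perc d (p * r) {ω | ¬ Good K ω 0} := by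
  have h1 : perc d (p * r) = ((perc d p).prod (perc d r)).map
      (fun x : Cfg d × Cfg d => inter x.1 x.2) := (thin_law p r hp0 hp1 hr0 hr1).symm
  have hm : MeasurableSet {ω : Cfg d | ¬ Good K ω 0} := (meas_good K 0).compl
  rw [h1, Measure.map_apply measurable_inter hm]
  refine measure_mono fun q hq => ?_
  intro hg
  apply hq
  intro y hy z hz
  exact hg y (cluster_mono (zt_le e q) 0 hy) z (cluster_mono (zt_le e q) 0 hz)

/-- The energy in one direction. -/
lemma energy_dir' (i0 : Fin d) (K k : ℕ) {p r : ℝ} (hp0 : 0 ≤ p)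
    (hp1 : p ≤ 1) (h0 : 0 ≤ r) (h1 : r ≤ 1) (s : Dir d) :
    ∫⁻ ω in {ω | (cluster ω 0).Infinite ∧ ω (edge 0 s) = true},
        ENNReal.ofReal (((step s i0 : ℝ) + gA i0 K k r (shift (step s) ω) -
          gA i0 K k r ω) ^ 2) ∂(perc d p) ≤
      2 * perc d (p * r) {ω | ¬ Good K ω 0} +
      6 * ENNReal.ofReal ((1 - r) ^ 2) *
        ((∫⁻ q, evF i0 K k 0 s q ∂((perc d p).prod (perc d r))) +
         (∫⁻ q, evF i0 K k (step s) (opp s) q ∂((perc d p).prod (perc d r))) +
         perc d (p * r) {ω | ¬ Good K ω 0}) := by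
  classical
  haveI := isPP (d := d) h0 h1
  haveI := isPP (d := d) hp0 hp1
  have hSm : MeasurableSet {ω : Cfg d | (cluster ω 0).Infinite ∧ ω (edge 0 s) = true} :=
    (meas_inf 0).inter (meas_open (edge 0 s))
  set c : ENNReal := ENNReal.ofReal ((1 - r) ^ 2) with hc
  set Bd : Cfg d × Cfg d → ENNReal := ({q : Cfg d × Cfg d |
    ¬ Good K (zt (edge 0 s) q) 0}).indicator (fun _ => (1 : ENNReal)) with hBd
  have hBdm : Measurable Bd :=
    measurable_const.indicator ((measurable_zt (edge 0 s)) (meas_good K 0)).compl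
  have hG1 : Measurable fun ω : Cfg d => ({ω : Cfg d | ¬ Good K ω 0}).indicator
      (fun _ => (1 : ENNReal)) ω := measurable_const.indicator (meas_good K 0).compl
  have hT1 : Measurable fun ω : Cfg d => perc d r {η | ¬ Good K (inter ω η) 0} :=
    measurable_measure_prodMk_left (ν := perc d r) (measurable_inter (d := d) (meas_good K 0).compl)
  have hE1 := meas_evF (d := d) i0 K k 0 s
  have hE2 := meas_evF (d := d) i0 K k (step s) (opp s)
  have hT : Measurable fun q : Cfg d × Cfg d =>
      3 * (evF i0 K k 0 s q + evF i0 K k (step s) (opp s) q + Bd q) :=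
    ((hE1.add hE2).add hBdm).const_mul 3
  have hT2 : Measurable fun ω : Cfg d => ∫⁻ η, 3 * (evF i0 K k 0 s (ω, η) +
      evF i0 K k (step s) (opp s) (ω, η) + Bd (ω, η)) ∂(perc d r) := hT.lintegral_prod_right'
  rw [← lintegral_indicator hSm]
  calc ∫⁻ ω, ({ω : Cfg d | (cluster ω 0).Infinite ∧ ω (edge 0 s) = true}).indicator (fun ω =>
          ENNReal.ofReal (((step s i0 : ℝ) + gA i0 K k r (shift (step s) ω) -
          gA i0 K k r ω) ^ 2)) ω ∂(perc d p)
      ≤ ∫⁻ ω, (2 * perc d r {η | ¬ Good K (inter ω η) 0} +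
          (2 * c) * ∫⁻ η, 3 * (evF i0 K k 0 s (ω, η) + evF i0 K k (step s) (opp s) (ω, η) +
            Bd (ω, η)) ∂(perc d r)) ∂(perc d p) := by
        refine lintegral_mono fun ω => ?_
        by_cases hω : ω ∈ {ω : Cfg d | (cluster ω 0).Infinite ∧ ω (edge 0 s) = true}
        · rw [Set.indicator_of_mem hω]
          obtain ⟨hinf, hop⟩ := hω
          refine (ENNReal.ofReal_le_ofReal (gA_sq i0 K k h0 h1 s hinf hop)).trans ?_
          have hPm : Measurable fun η : Cfg d => Ph i0 K k s (ω, η) :=
            (Ph_meas i0 K k s).comp (measurable_prodMk_left (x := ω))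
          have hint : ENNReal.ofReal (∫ η, Ph i0 K k s (ω, η) ^ 2 ∂(perc d r)) =
              ∫⁻ η, ENNReal.ofReal (Ph i0 K k s (ω, η) ^ 2) ∂(perc d r) := by
            refine ofReal_integral_eq_lintegral_ofReal ?_ (Filter.Eventually.of_forall fun η =>
              sq_nonneg _)
            refine integrable_of_bdd _ (hPm.pow_const 2) ((1 + K + K : ℝ) ^ 2) fun η => ?_
            rw [abs_of_nonneg (sq_nonneg _)]
            have a3 := Ph_nonneg i0 K k s (ω, η)
            have a4 := Ph_le i0 K k s (ω, η)
            gcongr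
          have hnn : 0 ≤ ∫ η, Ph i0 K k s (ω, η) ^ 2 ∂(perc d r) :=
            integral_nonneg fun η => sq_nonneg _
          rw [ENNReal.ofReal_add (by positivity) (by positivity),
            ENNReal.ofReal_mul (by norm_num), ENNReal.ofReal_mul (by norm_num),
            ENNReal.ofReal_mul (sq_nonneg _), hint, ofReal_measureReal]
          have h2 : ENNReal.ofReal 2 = 2 := by simp
          rw [h2, mul_assoc 2 c]
          gcongr with η
          exact Ph_sq_le i0 K k s (ω, η) hinf hop
        · rw [Set.indicator_of_notMem hω]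
          exact bot_le
    _ = 2 * (∫⁻ ω, perc d r {η | ¬ Good K (inter ω η) 0} ∂(perc d p)) +
          (2 * c) * ∫⁻ ω, ∫⁻ η, 3 * (evF i0 K k 0 s (ω, η) +
            evF i0 K k (step s) (opp s) (ω, η) + Bd (ω, η)) ∂(perc d r) ∂(perc d p) := by
        rw [lintegral_add_left (hT1.const_mul 2), lintegral_const_mul _ hT1,
          lintegral_const_mul _ hT2]
    _ = 2 * perc d (p * r) {ω | ¬ Good K ω 0} +
          (2 * c) * (3 * ((∫⁻ q, evF i0 K k 0 s q ∂((perc d p).prod (perc d r))) +
         (∫⁻ q, evF i0 K k (step s) (opp s) q ∂((perc d p).prod (perc d r))) +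
         ∫⁻ q, Bd q ∂((perc d p).prod (perc d r)))) := by
        congr 1
        · congr 1
          have e1 : ∀ ω : Cfg d, perc d r {η | ¬ Good K (inter ω η) 0} =
              ∫⁻ η, ({ω : Cfg d | ¬ Good K ω 0}).indicator (fun _ => (1 : ENNReal)) (inter ω η)
                ∂(perc d r) := by
            intro ω
            have hmI : Measurable fun η : Cfg d => inter ω η :=
              measurable_inter.comp (measurable_prodMk_left (x := ω))
            have e2 : (fun η : Cfg d => ({ω : Cfg d | ¬ Good K ω 0}).indicator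
                (fun _ => (1 : ENNReal)) (inter ω η)) =
                ({η : Cfg d | ¬ Good K (inter ω η) 0}).indicator (fun _ => (1 : ENNReal)) := by
              funext η
              rfl
            have hm4 : MeasurableSet {η : Cfg d | ¬ Good K (inter ω η) 0} :=
              hmI (meas_good K 0).compl
            rw [e2, lintegral_indicator hm4]
            simp
          simp_rw [e1]
          rw [lintegral_thin p r hp0 hp1 h0 h1 _ hG1]
          have := lintegral_indicator (μ := perc d (p * r)) (meas_good (d := d) K 0).compl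
            (fun _ => (1 : ENNReal))
          simp only [lintegral_const, Measure.restrict_apply MeasurableSet.univ, Set.univ_inter,
            one_mul] at this
          exact this
        · congr 1
          have h3 := lintegral_prod (μ := perc d p) (ν := perc d r)
            (fun q : Cfg d × Cfg d => 3 * (evF i0 K k 0 s q + evF i0 K k (step s) (opp s) q +
              Bd q)) hT.aemeasurable
          have h6 := lintegral_const_mul (μ := (perc d p).prod (perc d r)) 3
            (f := fun q : Cfg d × Cfg d => evF i0 K k 0 s q + evF i0 K k (step s) (opp s) q +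
              Bd q) ((hE1.add hE2).add hBdm)
          have h7 := lintegral_add_right (μ := (perc d p).prod (perc d r))
            (fun q : Cfg d × Cfg d => evF i0 K k 0 s q + evF i0 K k (step s) (opp s) q) hBdm
          have h8 := lintegral_add_right (μ := (perc d p).prod (perc d r))
            (fun q : Cfg d × Cfg d => evF i0 K k 0 s q) hE2
          rw [← h3, h6, h7, h8]
    _ ≤ 2 * perc d (p * r) {ω | ¬ Good K ω 0} +
          (2 * c) * (3 * ((∫⁻ q, evF i0 K k 0 s q ∂((perc d p).prod (perc d r))) +
         (∫⁻ q, evF i0 K k (step s) (opp s) q ∂((perc d p).prod (perc d r))) +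
         perc d (p * r) {ω | ¬ Good K ω 0})) := by
        have h5 : ∫⁻ q, Bd q ∂((perc d p).prod (perc d r)) ≤
            perc d (p * r) {ω | ¬ Good K ω 0} := by
          have hm5 : MeasurableSet {q : Cfg d × Cfg d | ¬ Good K (zt (edge 0 s) q) 0} :=
            ((measurable_zt (edge 0 s)) (meas_good K 0)).compl
          simp only [hBd]
          rw [lintegral_indicator hm5, setLIntegral_const, one_mul]
          exact prob_bad_zt K p r hp0 hp1 h0 h1 (edge 0 s)
        gcongr
    _ = _ := by ring

end H5DF
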