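import Pool.Agent.H5.DF.Pot
import Pool.Agent.H5.DG.BGraph

/-!
MP_0d9ad5_pr (job DG-3): the block graph of a configuration; measurability and translations.
-/

namespace H5DF

open MeasureTheory

variable {d : ℕ}

open Classical in
/-- The edges of the clusters of diameter `≤ K`. -/
noncomputable def trunc (K : ℕ) (ζ : Cfg d) : Cfg d := fun e => ζ e && decide (Good K ζ e.1)

/-- The block graph. -/
noncomputable def Hb (K : ℕ) (ζ : Cfg d) : SimpleGraph (V d) := G (trunc K ζ)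

lemma trunc_true {K : ℕ} {ζ : Cfg d} {e : Ed d} :
    trunc K ζ e = true ↔ ζ e = true ∧ Good K ζ e.1 := by
  simp [trunc]

lemma good_edge {K : ℕ} {ζ : Cfg d} {x : V d} {s : Dir d} (h : ζ (edge x s) = true) :
    Good K ζ (edge x s).1 ↔ Good K ζ x := by
  obtain ⟨i, b⟩ := s
  cases b
  · have h1 : (edge x (i, false)).1 = x + step (i, false) := by simp [edge]
    rw [h1]
    exact good_iff (adj_of_open h).reachable
  · have h1 : (edge x (i, true)).1 = x := by simp [edge]
    rw [h1]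

lemma Hb_adj {K : ℕ} {ζ : Cfg d} {x y : V d} :
    (Hb K ζ).Adj x y ↔ (G ζ).Adj x y ∧ Good K ζ x := by
  constructor
  · rintro ⟨s, h1, h2⟩
    rw [trunc_true] at h2
    exact ⟨⟨s, h1, h2.1⟩, (good_edge h2.1).1 h2.2⟩
  · rintro ⟨⟨s, h1, h2⟩, h3⟩
    exact ⟨s, h1, trunc_true.2 ⟨h2, (good_edge h2).2 h3⟩⟩

theorem Hb_le (K : ℕ) (ζ ω : Cfg d) (h : ∀ e, ζ e = true → ω e = true) : Hb K ζ ≤ G ω := by
  intro x y hxy
  exact G_le h (Hb_adj.1 hxy).1

lemma reach_of_good {K : ℕ} {ζ : Cfg d} {x y : V d} (P : (G ζ).Walk x y) :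
    Good K ζ x → (Hb K ζ).Reachable x y := by
  induction P with
  | nil => intro _; exact SimpleGraph.Reachable.refl _
  | @cons a b c h p ih =>
    intro hg
    have h1 : (Hb K ζ).Adj a b := Hb_adj.2 ⟨h, hg⟩
    have h2 : Good K ζ b := (good_iff h.reachable).2 hg
    exact h1.reachable.trans (ih h2)

theorem blk_good {K : ℕ} {ζ : Cfg d} {x : V d} (h : Good K ζ x) :
    blk (Hb K ζ) x = cluster ζ x := by
  ext y
  constructor
  · intro hy
    exact SimpleGraph.Reachable.mono (Hb_le K ζ ζ fun _ h => h) hy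
  · rintro ⟨P⟩
    exact reach_of_good P h

theorem blk_bad {K : ℕ} {ζ : Cfg d} {x : V d} (h : ¬ Good K ζ x) :
    blk (Hb K ζ) x = {x} := by
  ext y
  constructor
  · rintro ⟨P⟩
    cases P with
    | nil => rfl
    | cons h1 p => exact absurd (Hb_adj.1 h1).2 h
  · intro hy
    rw [Set.mem_singleton_iff] at hy
    subst hy
    exact SimpleGraph.Reachable.refl _

theorem blk_norm {K : ℕ} {ζ : Cfg d} {x y : V d} (h : y ∈ blk (Hb K ζ) x) : ‖y - x‖ ≤ K := by
  by_cases hg : Good K ζ x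
  · rw [blk_good hg] at h
    exact hg y h x (mem_cluster_self ζ x)
  · rw [blk_bad hg, Set.mem_singleton_iff] at h
    subst h
    simp

theorem blk_finite (K : ℕ) (ζ : Cfg d) (x : V d) : (blk (Hb K ζ) x).Finite := by
  have h1 : (Metric.closedBall x (K : ℝ)).Finite :=
    (isCompact_closedBall x (K : ℝ)).finite_of_discrete
  refine h1.subset fun y hy => ?_
  rw [Metric.mem_closedBall, dist_eq_norm]
  exact blk_norm hy

theorem meas_blk (K : ℕ) (x y : V d) : MeasurableSet {ζ : Cfg d | y ∈ blk (Hb K ζ) x} := by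
  refine meas_reach_gen (fun ζ : Cfg d => Hb K ζ) ?_ x y
  intro a b
  have : {ζ : Cfg d | (Hb K ζ).Adj a b} =
      {ζ : Cfg d | (G ζ).Adj a b} ∩ {ζ : Cfg d | Good K ζ a} := by
    ext ζ
    exact Hb_adj
  rw [this]
  exact (meas_adj a b).inter (meas_good K a)

lemma meas_blk2 (K : ℕ) (x y : V d) :
    MeasurableSet {q : Cfg d × Cfg d | y ∈ blk (Hb K q.2) x} :=
  measurable_snd (meas_blk K x y)

lemma meas_adj1 (x y : V d) : MeasurableSet {q : Cfg d × Cfg d | (G q.1).Adj x y} :=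
  measurable_fst (meas_adj x y)

theorem meas_blive (K k : ℕ) (x : V d) :
    MeasurableSet {q : Cfg d × Cfg d | BLive (G q.1) (Hb K q.2) k x} := by
  have : {q : Cfg d × Cfg d | BLive (G q.1) (Hb K q.2) k x} = ⋂ y : V d,
      ({q : Cfg d × Cfg d | y ∈ blk (Hb K q.2) x} ∪
      {q : Cfg d × Cfg d | {z | (off (G q.1) (blk (Hb K q.2) y)).Reachable x z}.Finite ∧
        {z | (off (G q.1) (blk (Hb K q.2) y)).Reachable x z}.ncard ≤ k}ᶜ) := by
    ext q
    simp only [BLive, Set.mem_setOf_eq, Set.mem_iInter, Set.mem_union, Set.mem_compl_iff]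
    refine forall_congr' fun y => ?_
    by_cases hy : y ∈ blk (Hb K q.2) x
    · simp [hy]
    · simp [hy]
  rw [this]
  refine MeasurableSet.iInter fun y => (meas_blk2 K x y).union ?_
  refine (meas_small (fun q : Cfg d × Cfg d =>
    {z | (off (G q.1) (blk (Hb K q.2) y)).Reachable x z}) (fun z => ?_) k).compl
  refine meas_reach_gen (fun q : Cfg d × Cfg d => off (G q.1) (blk (Hb K q.2) y)) ?_ x z
  intro a b
  have h2 : {q : Cfg d × Cfg d | (off (G q.1) (blk (Hb K q.2) y)).Adj a b} =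
      {q : Cfg d × Cfg d | (G q.1).Adj a b} ∩
      ({q : Cfg d × Cfg d | a ∈ blk (Hb K q.2) y}ᶜ ∩
        {q : Cfg d × Cfg d | b ∈ blk (Hb K q.2) y}ᶜ) := by
    ext q
    simp only [off, Set.mem_setOf_eq, Set.mem_inter_iff, Set.mem_compl_iff]
  rw [h2]
  exact (meas_adj1 a b).inter ((meas_blk2 K y a).compl.inter (meas_blk2 K y b).compl)

theorem meas_batt (K k : ℕ) (x w : V d) :
    MeasurableSet {q : Cfg d × Cfg d | BAtt (G q.1) (Hb K q.2) k x w} := by
  have h := meas_walk (fun q : Cfg d × Cfg d => G q.1) meas_adj1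
    (fun q z => z ∉ blk (Hb K q.2) w → ¬ BLive (G q.1) (Hb K q.2) k z) (fun z => by
      have : {q : Cfg d × Cfg d | z ∉ blk (Hb K q.2) w → ¬ BLive (G q.1) (Hb K q.2) k z} =
          {q : Cfg d × Cfg d | z ∈ blk (Hb K q.2) w} ∪
          {q : Cfg d × Cfg d | BLive (G q.1) (Hb K q.2) k z}ᶜ := by
        ext q
        simp only [Set.mem_setOf_eq, Set.mem_union, Set.mem_compl_iff]
        tauto
      rw [this]
      exact (meas_blk2 K w z).union (meas_blive K k z).compl) x w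
  have h2 : {q : Cfg d × Cfg d | BAtt (G q.1) (Hb K q.2) k x w} =
      {q : Cfg d × Cfg d | BLive (G q.1) (Hb K q.2) k w} ∩
      {q : Cfg d × Cfg d | ∃ P : (G q.1).Walk x w, ∀ z ∈ P.support,
        z ∉ blk (Hb K q.2) w → ¬ BLive (G q.1) (Hb K q.2) k z} := by
    ext q
    simp only [BAtt, Set.mem_setOf_eq, Set.mem_inter_iff]
  rw [h2]
  exact (meas_blive K k w).inter h

section Iso

variable {W W' : Type*} {A B : SimpleGraph W} {A' B' : SimpleGraph W'}

lemma blk_equiv (e : W ≃ W') (hB : ∀ a b, B'.Adj (e a) (e b) ↔ B.Adj a b) (x y : W) :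
    e y ∈ blk B' (e x) ↔ y ∈ blk B x :=
  SimpleGraph.Iso.reachable_iff (φ := (⟨e, fun {a b} => hB a b⟩ : B ≃g B'))

lemma blive_equiv (e : W ≃ W') (hA : ∀ a b, A'.Adj (e a) (e b) ↔ A.Adj a b)
    (hB : ∀ a b, B'.Adj (e a) (e b) ↔ B.Adj a b) (k : ℕ) (x : W) :
    BLive A' B' k (e x) ↔ BLive A B k x := by
  unfold BLive
  rw [← e.forall_congr_right]
  refine forall_congr' fun y => ?_
  have hoff : ∀ a b, (off A' (blk B' (e y))).Adj (e a) (e b) ↔ (off A (blk B y)).Adj a b := by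
    intro a b
    simp only [off, hA, blk_equiv e hB]
  have hset : {z | (off A' (blk B' (e y))).Reachable (e x) z} =
      e '' {z | (off A (blk B y)).Reachable x z} := by
    ext z
    constructor
    · intro hz
      refine ⟨e.symm z, ?_, e.apply_symm_apply z⟩
      have h3 := SimpleGraph.Iso.reachable_iff
        (φ := (⟨e, fun {a b} => hoff a b⟩ : off A (blk B y) ≃g off A' (blk B' (e y))))
        (u := x) (v := e.symm z)
      refine h3.1 ?_
      show (off A' (blk B' (e y))).Reachable (e x) (e (e.symm z))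
      rw [e.apply_symm_apply]
      exact hz
    · rintro ⟨u, hu, rfl⟩
      exact (SimpleGraph.Iso.reachable_iff
        (φ := (⟨e, fun {a b} => hoff a b⟩ : off A (blk B y) ≃g off A' (blk B' (e y))))).2 hu
  rw [blk_equiv e hB, hset, Set.finite_image_iff e.injective.injOn,
    Set.ncard_image_of_injective _ e.injective]

lemma batt_equiv_mp (e : W ≃ W') (hA : ∀ a b, A'.Adj (e a) (e b) ↔ A.Adj a b)
    (hB : ∀ a b, B'.Adj (e a) (e b) ↔ B.Adj a b) (k : ℕ) (x w : W)
    (h : BAtt A B k x w) : BAtt A' B' k (e x) (e w) := by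
  obtain ⟨hw, P, hP⟩ := h
  refine ⟨(blive_equiv e hA hB k w).2 hw,
    P.map (⟨e, fun {a b} h => (hA a b).2 h⟩ : A →g A'), ?_⟩
  intro z hz hzw
  rw [SimpleGraph.Walk.support_map, List.mem_map] at hz
  obtain ⟨u, hu, rfl⟩ := hz
  change e u ∉ blk B' (e w) at hzw
  rw [blk_equiv e hB] at hzw
  have h1 := hP u hu hzw
  intro h2
  exact h1 ((blive_equiv e hA hB k u).1 h2)

lemma batt_equiv (e : W ≃ W') (hA : ∀ a b, A'.Adj (e a) (e b) ↔ A.Adj a b)
    (hB : ∀ a b, B'.Adj (e a) (e b) ↔ B.Adj a b) (k : ℕ) (x w : W) :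
    BAtt A' B' k (e x) (e w) ↔ BAtt A B k x w := by
  constructor
  · intro h
    have hA' : ∀ a b, A.Adj (e.symm a) (e.symm b) ↔ A'.Adj a b := fun a b => by
      rw [← hA, e.apply_symm_apply, e.apply_symm_apply]
    have hB' : ∀ a b, B.Adj (e.symm a) (e.symm b) ↔ B'.Adj a b := fun a b => by
      rw [← hB, e.apply_symm_apply, e.apply_symm_apply]
    have h2 := batt_equiv_mp e.symm hA' hB' k _ _ h
    rwa [e.symm_apply_apply, e.symm_apply_apply] at h2
  · exact batt_equiv_mp e hA hB k x w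

end Iso

lemma trunc_shift (K : ℕ) (a : V d) (ζ : Cfg d) :
    trunc K (shift a ζ) = shift a (trunc K ζ) := by
  funext e
  simp only [trunc, shift]
  congr 1
  exact decide_eq_decide.2 (good_shift K a e.1 ζ)

theorem batt_shift (K k : ℕ) (a x w : V d) (ω ζ : Cfg d) :
    BAtt (G (shift a ω)) (Hb K (shift a ζ)) k x w ↔ BAtt (G ω) (Hb K ζ) k (x + a) (w + a) := by
  have hA : ∀ u v, (G ω).Adj (Equiv.addRight a u) (Equiv.addRight a v) ↔
      (G (shift a ω)).Adj u v := fun u v => (shiftIso a ω).map_rel_iff'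
  have hB : ∀ u v, (Hb K ζ).Adj (Equiv.addRight a u) (Equiv.addRight a v) ↔
      (Hb K (shift a ζ)).Adj u v := fun u v => by
    unfold Hb
    rw [trunc_shift]
    exact (shiftIso a (trunc K ζ)).map_rel_iff'
  exact (batt_equiv (Equiv.addRight a) hA hB k x w).symm

end H5DF
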