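import Pool.Agent.H5.DG.Explore3
import Pool.Agent.H5.DG.BAttach

/-!
The potential: average of the coordinate over the attachment block (MP_0d9ad5_pr).
-/

namespace H5DF

open MeasureTheory

variable {d : ℕ}

/-- The attachment block of `x`. -/
def attS (K k : ℕ) (q : Cfg d × Cfg d) (x : V d) : Set (V d) :=
  {w | BAtt (G q.1) (Hb K (inter q.1 q.2)) k x w}

open Classical in
/-- The potential at the origin. -/
noncomputable def u0 (i0 : Fin d) (K k : ℕ) (q : Cfg d × Cfg d) : ℝ :=
  (∑ w ∈ ballF (k + K), if (cluster q.1 0).Infinite ∧ w ∈ attS K k q 0 then (w i0 : ℝ) else 0) /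
  (∑ w ∈ ballF (d := d) (k + K), if (cluster q.1 0).Infinite ∧ w ∈ attS K k q 0 then (1 : ℝ) else 0)

lemma Hb_inter_le (K : ℕ) (q : Cfg d × Cfg d) : Hb K (inter q.1 q.2) ≤ G q.1 :=
  Hb_le K _ _ fun e he => by
    simp only [inter, Bool.and_eq_true] at he
    exact he.1

lemma meas_attS (K k : ℕ) (x w : V d) :
    MeasurableSet {q : Cfg d × Cfg d | w ∈ attS K k q x} := by
  have h1 : Measurable fun q : Cfg d × Cfg d => (q.1, inter q.1 q.2) :=
    measurable_fst.prodMk measurable_inter
  exact h1 (meas_batt K k x w)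

lemma u0_meas (i0 : Fin d) (K k : ℕ) : Measurable (u0 (d := d) i0 K k) := by
  classical
  have hm : ∀ w : V d, MeasurableSet {q : Cfg d × Cfg d |
      (cluster q.1 0).Infinite ∧ w ∈ attS K k q 0} := fun w =>
    (measurable_fst (meas_inf 0)).inter (meas_attS K k 0 w)
  unfold u0
  refine Measurable.div ?_ ?_
  · exact Finset.measurable_fun_sum _ fun w _ =>
      Measurable.ite (hm w) measurable_const measurable_const
  · exact Finset.measurable_fun_sum _ fun w _ =>
      Measurable.ite (hm w) measurable_const measurable_const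

lemma u0_bound (i0 : Fin d) (K k : ℕ) (q : Cfg d × Cfg d) : |u0 i0 K k q| ≤ (k : ℝ) + K := by
  classical
  unfold u0
  set S := ∑ w ∈ ballF (d := d) (k + K),
    if (cluster q.1 0).Infinite ∧ w ∈ attS K k q 0 then (1 : ℝ) else 0 with hS
  have hS0 : 0 ≤ S := Finset.sum_nonneg fun w _ => by split_ifs <;> norm_num
  rw [abs_div, abs_of_nonneg hS0]
  have h1 : |∑ w ∈ ballF (k + K), if (cluster q.1 0).Infinite ∧ w ∈ attS K k q 0 then
      (w i0 : ℝ) else 0| ≤ ((k : ℝ) + K) * S := by
    rw [hS, Finset.mul_sum]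
    refine (Finset.abs_sum_le_sum_abs _ _).trans (Finset.sum_le_sum fun w hw => ?_)
    split_ifs
    · have h2 := abs_coord_le i0 w
      have h3 := mem_ballF.1 hw
      push_cast at h3
      linarith
    · simp
  rcases hS0.eq_or_lt with h | h
  · rw [← h]
    simp
    positivity
  · rw [div_le_iff₀ h]
    exact h1

lemma attS_ball {K k : ℕ} {q : Cfg d × Cfg d} {x w : V d} (hinf : (cluster q.1 x).Infinite)
    (hw : w ∈ attS K k q x) : ‖w - x‖ ≤ (k : ℝ) + K := by
  obtain ⟨w0, hw0, P, hP⟩ := batt_exists (G q.1) (Hb K (inter q.1 q.2)) (Hb_inter_le K q) k x hinf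
  have h1 := (batt_iff _ _ (Hb_inter_le K q) k x hinf w0 w hw0).1 hw
  have h2 := blk_norm h1
  have h3 := walk_norm_le P
  have h4 : ‖w - x‖ ≤ ‖w - w0‖ + ‖w0 - x‖ := by
    have : w - x = (w - w0) + (w0 - x) := by abel
    rw [this]; exact norm_add_le _ _
  have h5 : (P.length : ℝ) ≤ k := by exact_mod_cast hP
  linarith

lemma attS_finite {K k : ℕ} {q : Cfg d × Cfg d} {x : V d} (hinf : (cluster q.1 x).Infinite) :
    (attS K k q x).Finite ∧ (attS K k q x).Nonempty := by
  obtain ⟨w0, hw0, P, hP⟩ := batt_exists (G q.1) (Hb K (inter q.1 q.2)) (Hb_inter_le K q) k x hinf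
  refine ⟨?_, w0, hw0⟩
  have : attS K k q x = blk (Hb K (inter q.1 q.2)) w0 := by
    ext w
    exact batt_iff _ _ (Hb_inter_le K q) k x hinf w0 w hw0
  rw [this]
  exact blk_finite _ _ _

lemma u0_eq (i0 : Fin d) (K k : ℕ) {q : Cfg d × Cfg d} (hinf : (cluster q.1 0).Infinite) :
    u0 i0 K k q = dvs i0 (attS K k q 0) 0 := by
  classical
  have hfin := (attS_finite (K := K) (k := k) hinf).1
  have hsub : ∀ w ∈ attS K k q 0, w ∈ ballF (k + K) := by
    intro w hw
    have := attS_ball hinf hw
    rw [sub_zero] at this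
    rw [mem_ballF]
    push_cast
    exact this
  have hset : (ballF (k + K)).filter (fun w => (cluster q.1 0).Infinite ∧ w ∈ attS K k q 0) =
      hfin.toFinset := by
    ext w
    rw [Finset.mem_filter, Set.Finite.mem_toFinset]
    exact ⟨fun h => h.2.2, fun h => ⟨hsub w h, hinf, h⟩⟩
  unfold u0 dvs
  rw [← Finset.sum_filter, ← Finset.sum_filter, hset, finsum_mem_eq_finite_toFinset_sum _ hfin,
    Set.ncard_eq_toFinset_card _ hfin]
  simp

/-- `dvs` for a nonempty finite set. -/
lemma dvs_sub (i0 : Fin d) {S : Set (V d)} (hS : S.Finite) (hne : S.Nonempty) (x y : V d) :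
    dvs i0 S x = dvs i0 S y + y i0 - x i0 := by
  have hc : (S.ncard : ℝ) ≠ 0 := by
    have := (Set.ncard_pos hS).2 hne
    exact_mod_cast this.ne'
  have h : ∀ x : V d, ∑ᶠ z ∈ S, ((z i0 : ℝ) - x i0) = (∑ᶠ z ∈ S, (z i0 : ℝ)) - S.ncard * x i0 := by
    intro x
    rw [finsum_mem_eq_finite_toFinset_sum _ hS, finsum_mem_eq_finite_toFinset_sum _ hS,
      Set.ncard_eq_toFinset_card _ hS, Finset.sum_sub_distrib]
    simp
  unfold dvs
  rw [h, h]
  field_simp
  ring

lemma dvs_singleton (i0 : Fin d) (x : V d) : dvs i0 {x} x = 0 := by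
  unfold dvs
  simp

/-- `dvs` and translations. -/
lemma dvs_translate (i0 : Fin d) (S : Set (V d)) (a : V d) :
    dvs i0 {w | w + a ∈ S} 0 = dvs i0 S a := by
  have hset : S = (fun w => w + a) '' {w | w + a ∈ S} := by
    ext z
    constructor
    · intro hz
      exact ⟨z - a, by simpa using hz, by simp⟩
    · rintro ⟨w, hw, rfl⟩
      exact hw
  have hinj : Function.Injective fun w : V d => w + a := add_left_injective a
  unfold dvs
  conv_rhs => rw [hset]
  rw [Set.ncard_image_of_injective _ hinj, finsum_mem_image hinj.injOn]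
  congr 1
  refine finsum_mem_congr rfl fun w _ => ?_
  simp

lemma attS_shift (K k : ℕ) (a x w : V d) (q : Cfg d × Cfg d) :
    w ∈ attS K k (shift a q.1, shift a q.2) x ↔ w + a ∈ attS K k q (x + a) := by
  unfold attS
  simp only [Set.mem_setOf_eq, inter_shift]
  exact batt_shift K k a x w q.1 (inter q.1 q.2)

lemma u0_shift (i0 : Fin d) (K k : ℕ) {q : Cfg d × Cfg d} (a : V d)
    (hinf : (cluster q.1 a).Infinite) :
    u0 i0 K k (shift a q.1, shift a q.2) = dvs i0 (attS K k q a) a := by
  have hi : (cluster (shift a q.1) 0).Infinite := by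
    rw [inf_shift, zero_add]; exact hinf
  rw [u0_eq i0 K k (q := (shift a q.1, shift a q.2)) hi, ← dvs_translate i0 (attS K k q a) a]
  congr 1
  ext w
  rw [attS_shift, zero_add]
  rfl

/-- The pair gradient. -/
noncomputable def gr (i0 : Fin d) (K k : ℕ) (s : Dir d) (q : Cfg d × Cfg d) : ℝ :=
  (step s i0 : ℝ) + u0 i0 K k (shift (step s) q.1, shift (step s) q.2) - u0 i0 K k q

lemma gr_cases (i0 : Fin d) (K k : ℕ) (s : Dir d) {q : Cfg d × Cfg d}
    (hinf : (cluster q.1 0).Infinite) (hs : q.1 (edge 0 s) = true) :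
    gr i0 K k s q = 0 ∨ (BLive (G q.1) (Hb K (inter q.1 q.2)) k 0 ∧
      BLive (G q.1) (Hb K (inter q.1 q.2)) k (step s) ∧
      step s ∉ blk (Hb K (inter q.1 q.2)) 0 ∧
      |gr i0 K k s q| ≤ 1 + |dvs i0 (blk (Hb K (inter q.1 q.2)) 0) 0| +
        |dvs i0 (blk (Hb K (inter q.1 q.2)) (step s)) (step s)|) := by
  set H := Hb K (inter q.1 q.2) with hH
  have hHG : H ≤ G q.1 := Hb_inter_le K q
  have hadj : (G q.1).Adj 0 (step s) := by
    have := adj_of_open hs
    rwa [zero_add] at this
  have hinf' : (cluster q.1 (step s)).Infinite := by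
    have := (inf_adj hs).2 hinf
    rwa [zero_add] at this
  have hu0 := u0_eq i0 K k (q := q) hinf
  have hu1 := u0_shift i0 K k (q := q) (step s) hinf'
  have hgr : gr i0 K k s q = (step s i0 : ℝ) + dvs i0 (attS K k q (step s)) (step s) -
      dvs i0 (attS K k q 0) 0 := by
    unfold gr; rw [hu0, hu1]
  obtain ⟨hf0, hn0⟩ := attS_finite (K := K) (k := k) (q := q) hinf
  have hsame : attS K k q (step s) = attS K k q 0 → gr i0 K k s q = 0 := by
    intro h
    rw [hgr, h, dvs_sub i0 hf0 hn0 (step s) 0]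
    simp
  by_cases h0 : BLive (G q.1) H k 0
  · by_cases h1 : BLive (G q.1) H k (step s)
    · have e0 : attS K k q 0 = blk H 0 := by
        ext w; exact batt_live _ _ hHG k 0 h0 w
      have e1 : attS K k q (step s) = blk H (step s) := by
        ext w; exact batt_live _ _ hHG k _ h1 w
      by_cases hb : step s ∈ blk H 0
      · left
        refine hsame ?_
        rw [e0, e1]
        ext w
        exact ⟨fun h => SimpleGraph.Reachable.trans hb h, fun h =>
          SimpleGraph.Reachable.trans (SimpleGraph.Reachable.symm hb) h⟩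
      · right
        refine ⟨h0, h1, hb, ?_⟩
        rw [hgr, e0, e1]
        have := step_coord_le i0 s
        have a1 := neg_abs_le (dvs i0 (blk H 0) 0)
        have a2 := le_abs_self (dvs i0 (blk H 0) 0)
        have a3 := neg_abs_le (dvs i0 (blk H (step s)) (step s))
        have a4 := le_abs_self (dvs i0 (blk H (step s)) (step s))
        rw [abs_le] at *
        constructor <;> linarith [this.1, this.2]
    · left
      refine hsame ?_
      ext w
      constructor
      · exact fun h => batt_adj _ _ hHG k _ _ hinf' hadj.symm h1 w h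
      · intro h
        obtain ⟨w1, hw1, -⟩ := batt_exists _ _ hHG k (step s) hinf'
        have h2 := batt_adj _ _ hHG k _ _ hinf' hadj.symm h1 w1 hw1
        have h3 := (batt_iff _ _ hHG k 0 hinf w1 w h2).1 h
        exact (batt_iff _ _ hHG k (step s) hinf' w1 w hw1).2 h3
  · left
    refine hsame ?_
    ext w
    constructor
    · intro h
      obtain ⟨w1, hw1, -⟩ := batt_exists _ _ hHG k 0 hinf
      have h2 := batt_adj _ _ hHG k _ _ hinf hadj h0 w1 hw1
      have h3 := (batt_iff _ _ hHG k (step s) hinf' w1 w h2).1 h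
      exact (batt_iff _ _ hHG k 0 hinf w1 w hw1).2 h3
    · exact fun h => batt_adj _ _ hHG k _ _ hinf hadj h0 w h

end H5DF
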