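import Pool.Agent.H5.DG.Explore2

/-!
The content of this file is in `Pool.Agent.H5.DG.Explore2` (one module less in the import chain).
-/
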